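import Pool.Agent.H54.SQ.Few

set_option autoImplicit false

/-!
# Four branch points, groups which are not commutative: the tensor square
-/

namespace Pool.Agent.H54.SQ

open Finset Pool.Agent.H82.CO Pool.Agent.H92.OG

variable {G : Type} [Group G] [Fintype G]

/-- Four branch points, genus greater than one. -/
theorem tensor_ge (s : Fin 4 → G) (hs : ∀ i, s i ≠ 1) (hna : ∃ a b : G, a * b ≠ b * a)
    (hprod : (List.ofFn s).prod = 1) (hgen : Subgroup.closure (Set.range s) = ⊤)
    (hg : 1 < genus s) :
    5 / 1296 * (Nat.card G : ℝ) - 1 ≤ (quadInv s + extInv s).re := by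
  apply tensor_four s hna hprod hgen hs
  by_contra hcon
  push Not at hcon
  have h1 : nu s = 2 := by
    have h2 : ∀ i, (1 - 1 / (orderOf (s i) : ℝ)) = 1 / 2 := by
      intro i
      have h3 : orderOf (s i) ∣ 2 := orderOf_dvd_of_pow_eq_one (hcon i)
      have h4 : orderOf (s i) ≠ 1 := by rw [Ne, orderOf_eq_one_iff]; exact hs i
      have h5 : orderOf (s i) = 2 := ((Nat.dvd_prime Nat.prime_two).1 h3).resolve_left h4
      rw [h5]
      norm_num
    unfold nu
    rw [sum_congr rfl fun i _ => h2 i]
    simp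
    norm_num
  rw [genus_eq, h1] at hg
  norm_num at hg

/-- Four branch points, no local monodromy of order two. -/
theorem tensor_ge_all (s : Fin 4 → G) (hs : ∀ i, s i ≠ 1) (hna : ∃ a b : G, a * b ≠ b * a)
    (hprod : (List.ofFn s).prod = 1) (hgen : Subgroup.closure (Set.range s) = ⊤)
    (h2 : ∀ i, s i ^ 2 ≠ 1) :
    5 / 81 * (Nat.card G : ℝ) - 1 ≤ (quadInv s + extInv s).re := by
  have h : ∀ i, 3 ≤ orderOf (s i) := by
    intro i
    have h3 : orderOf (s i) ≠ 1 := by rw [Ne, orderOf_eq_one_iff]; exact hs i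
    have h4 : orderOf (s i) ≠ 2 := fun h5 => h2 i (by rw [← h5]; exact pow_orderOf_eq_one _)
    have h5 := orderOf_pos (s i)
    omega
  have h6 := tensor_four_all s hna hprod hgen hs h
  linarith

end Pool.Agent.H54.SQ
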