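import Pool.Agent.H54.SQ.Ge

set_option autoImplicit false

/-!
# Sums over the conjugates

* `sum_ge`: as `Pool.Agent.H78.OD.sum_q_ge_aux` (file `Pool/Agent/H78/OD/Bound.lean`) with `ge_self`, `ge_ne`.
* `cnt_half`: the `w` with `w b w⁻¹ = a` form the empty set or a coset of the centralizer of `a`, which is not `G`
(compare `Pool.Agent.H78.OD.three_card_conj_le` in `Pool/Agent/H78/OD/Group.lean`).
* `cnt_third`: if the index of the centralizer of `a` is 2 then the class of `a` is `{a, b}`; so it is at least 3.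
-/

namespace Pool.Agent.H54.SQ

open Finset Pool.Agent.H82.CO Pool.Agent.H92.OG

variable {G : Type} [Group G] [Fintype G]

theorem sum_ge {a b : G} (ha : a ≠ 1) (hb : b ≠ 1) :
    (Nat.card G : ℝ) * ((1 - y a) * (1 - y b) / 4) - zz a * zz b *
      ((Nat.card G : ℝ) * (5 / 108) + (cnt a b : ℝ) / 27) ≤
      ∑ w : G, q a (w * b * w⁻¹) := by
  classical
  have h1 : ∀ w : G, (1 - y a) * (1 - y b) / 4 -
      (zz a * zz b * (5 / 108) + if w * b * w⁻¹ = a then zz a * zz b / 27 else 0) ≤
      q a (w * b * w⁻¹) := by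
    intro w
    by_cases hw : w * b * w⁻¹ = a
    · rw [if_pos hw, hw]
      have hy : y b = y a := by rw [← hw, Pool.Agent.H78.OD.y_conj]
      have hz : zz b = zz a := by rw [← hw, zz_conj]
      have h2 := ge_self ha
      rw [hy, hz]
      linarith
    · rw [if_neg hw]
      have hb' : w * b * w⁻¹ ≠ 1 := by
        intro hc
        apply hb
        have : b = w⁻¹ * (w * b * w⁻¹) * w := by group
        rw [this, hc]; group
      have h2 := ge_ne ha hb' (Ne.symm hw)
      rw [Pool.Agent.H78.OD.y_conj, zz_conj] at h2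
      linarith
  have h2 := Finset.sum_le_sum (s := univ) fun w _ => h1 w
  refine le_trans (le_of_eq ?_) h2
  have h3 : (cnt a b : ℝ) = ((univ.filter fun w : G => w * b * w⁻¹ = a).card : ℝ) := by
    unfold cnt
    congr!
  rw [Finset.sum_sub_distrib, Finset.sum_add_distrib, Finset.sum_const, Finset.sum_const,
    ← Finset.sum_filter, Finset.sum_const, card_univ, Nat.card_eq_fintype_card, h3]
  simp only [nsmul_eq_mul]
  ring

theorem cnt_le (a b : G) : cnt a b ≤ Nat.card G := by
  rw [Nat.card_eq_fintype_card]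
  exact card_le_univ _

theorem cnt_zero {a b : G} (h : ∀ w : G, w * b * w⁻¹ ≠ a) : cnt a b = 0 := by
  classical
  have h1 : cnt a b = (univ.filter fun x : G => x * b * x⁻¹ = a).card := by
    unfold cnt
    congr!
  rw [h1, card_eq_zero, filter_eq_empty_iff]
  exact fun w _ => h w

private theorem cnt_cent (a b : G) : cnt a b ≤ Nat.card (Subgroup.centralizer ({a} : Set G)) := by
  classical
  rcases Nat.eq_zero_or_pos (cnt a b) with h0 | h0
  · rw [h0]; exact Nat.zero_le _
  have hne : (univ.filter fun x : G => x * b * x⁻¹ = a).Nonempty := by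
    rw [← card_pos]
    unfold cnt at h0
    convert h0
  obtain ⟨x0, hx0⟩ := hne
  have hx0' : x0 * b * x0⁻¹ = a := by simpa using hx0
  have h1 : cnt a b = (univ.filter fun x : G => x * b * x⁻¹ = a).card := by
    unfold cnt
    congr!
  rw [h1, Nat.card_eq_fintype_card, ← Finset.card_univ]
  apply Finset.card_le_card_of_injOn
    (fun x => if hx : x * x0⁻¹ ∈ Subgroup.centralizer ({a} : Set G) then
      (⟨x * x0⁻¹, hx⟩ : Subgroup.centralizer ({a} : Set G)) else 1)
  · intro x _
    simp
  · have key : ∀ x ∈ (univ.filter fun x : G => x * b * x⁻¹ = a),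
        x * x0⁻¹ ∈ Subgroup.centralizer ({a} : Set G) := by
      intro x hx
      have hx' : x * b * x⁻¹ = a := by simpa using hx
      rw [Subgroup.mem_centralizer_iff]
      intro c hc
      rw [Set.mem_singleton_iff] at hc
      subst hc
      calc c * (x * x0⁻¹) = x * b * x⁻¹ * (x * x0⁻¹) := by rw [hx']
        _ = x * x0⁻¹ * (x0 * b * x0⁻¹) := by group
        _ = x * x0⁻¹ * c := by rw [hx0']
    intro x hx x' hx' hxx
    have hx1 := key x (by simpa using hx)
    have hx2 := key x' (by simpa using hx')
    simp only [hx1, hx2, dif_pos] at hxx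
    have := congrArg Subtype.val hxx
    simpa using this

private theorem index_ne_one {a : G} (ha : a ∉ Subgroup.center G) :
    (Subgroup.centralizer ({a} : Set G)).index ≠ 1 := by
  intro h
  apply ha
  rw [Subgroup.index_eq_one] at h
  rw [Subgroup.mem_center_iff]
  intro c
  have hc : c ∈ Subgroup.centralizer ({a} : Set G) := by rw [h]; trivial
  rw [Subgroup.mem_centralizer_iff] at hc
  exact (hc a rfl).symm

theorem cnt_half {a b : G} (ha : a ∉ Subgroup.center G) : 2 * cnt a b ≤ Nat.card G := by
  have h1 := cnt_cent a b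
  have h2 := Subgroup.card_mul_index (Subgroup.centralizer ({a} : Set G))
  have h3 := index_ne_one ha
  have h4 : (Subgroup.centralizer ({a} : Set G)).index ≠ 0 := Subgroup.index_ne_zero_of_finite
  have h5 : 2 ≤ (Subgroup.centralizer ({a} : Set G)).index := by omega
  calc 2 * cnt a b ≤ 2 * Nat.card (Subgroup.centralizer ({a} : Set G)) := Nat.mul_le_mul_left 2 h1
    _ = Nat.card (Subgroup.centralizer ({a} : Set G)) * 2 := mul_comm _ _
    _ ≤ Nat.card (Subgroup.centralizer ({a} : Set G)) * (Subgroup.centralizer ({a} : Set G)).index :=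
      Nat.mul_le_mul_left _ h5
    _ = Nat.card G := h2

theorem cnt_third {a b : G} (ha : a ∉ Subgroup.center G) (h2 : ∀ c : G, ¬ TwoCls a c) :
    3 * cnt a b ≤ Nat.card G := by
  have h1 := cnt_cent a b
  have h2' := Subgroup.card_mul_index (Subgroup.centralizer ({a} : Set G))
  have h3 := index_ne_one ha
  have h4 : (Subgroup.centralizer ({a} : Set G)).index ≠ 0 := Subgroup.index_ne_zero_of_finite
  have h6 : (Subgroup.centralizer ({a} : Set G)).index ≠ 2 := by
    intro h6
    have hmem : ∀ w : G, w ∈ Subgroup.centralizer ({a} : Set G) ↔ w * a * w⁻¹ = a := by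
      intro w
      rw [Subgroup.mem_centralizer_iff]
      constructor
      · intro h
        rw [← h a rfl]; group
      · intro h c hc
        rw [Set.mem_singleton_iff] at hc
        subst hc
        calc c * w = w * c * w⁻¹ * w := by rw [h]
          _ = w * c := by group
    have h7 : ∃ t : G, t ∉ Subgroup.centralizer ({a} : Set G) := by
      by_contra h8
      push Not at h8
      exact h3 (Subgroup.index_eq_one.2 (Subgroup.eq_top_iff' _ |>.2 h8))
    obtain ⟨t, ht⟩ := h7
    refine h2 (t * a * t⁻¹) ⟨fun h => ht ((hmem t).2 h.symm), ⟨t, rfl⟩, fun w => ?_⟩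
    by_cases hw : w ∈ Subgroup.centralizer ({a} : Set G)
    · exact Or.inl ((hmem w).1 hw)
    · right
      have h9 : t⁻¹ * w ∈ Subgroup.centralizer ({a} : Set G) := by
        rw [Subgroup.mul_mem_iff_of_index_two h6, inv_mem_iff]
        exact iff_of_false ht hw
      have h10 := (hmem _).1 h9
      calc w * a * w⁻¹ = t * (t⁻¹ * w * a * (t⁻¹ * w)⁻¹) * t⁻¹ := by group
        _ = t * a * t⁻¹ := by rw [h10]
  have h5 : 3 ≤ (Subgroup.centralizer ({a} : Set G)).index := by omega
  calc 3 * cnt a b ≤ 3 * Nat.card (Subgroup.centralizer ({a} : Set G)) := Nat.mul_le_mul_left 3 h1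
    _ = Nat.card (Subgroup.centralizer ({a} : Set G)) * 3 := mul_comm _ _
    _ ≤ Nat.card (Subgroup.centralizer ({a} : Set G)) * (Subgroup.centralizer ({a} : Set G)).index :=
      Nat.mul_le_mul_left _ h5
    _ = Nat.card G := h2'

end Pool.Agent.H54.SQ
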