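import Pool.Agent.H92.OG.Num
import Pool.Agent.H92.OG.Sum
import Pool.Agent.H78.OD.Bound

set_option autoImplicit false

/-!
# The even order case, four branch points (MP_bf82d2_ag, note 5867). Definitions.
-/

namespace Pool.Agent.H54.SQ

open Finset Pool.Agent.H82.CO Pool.Agent.H92.OG

variable {G : Type} [Group G] [Fintype G]

/-- `1 - 3 / m` for `m ≥ 3`, and `0` for `m ≤ 3`. -/
noncomputable def zz (a : G) : ℝ := max 0 (z a)

open Classical in
/-- The number of the `w` with `w b w⁻¹ = a`. -/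
noncomputable def cnt (a b : G) : ℕ := (univ.filter fun w : G => w * b * w⁻¹ = a).card

omit [Fintype G] in
/-- The conjugacy class of `a` is `{a, b}`, `a ≠ b`. -/
def TwoCls (a b : G) : Prop :=
  a ≠ b ∧ (∃ w : G, w * a * w⁻¹ = b) ∧ ∀ w : G, w * a * w⁻¹ = a ∨ w * a * w⁻¹ = b

open Classical in
/-- The sum over the branch points of `1 / m_i` times the number of the `x` with `x ^ 2` in the group
generated by `s i` and not `1`. -/
noncomputable def rho {N : ℕ} (s : Fin N → G) : ℝ :=
  ∑ i, (1 / (orderOf (s i) : ℝ)) *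
    ((univ.filter fun x : G => x ^ 2 ≠ 1 ∧ x ^ 2 ∈ Subgroup.zpowers (s i)).card : ℝ)

omit [Fintype G] in
theorem zz_nonneg (a : G) : 0 ≤ zz a := le_max_left _ _

omit [Fintype G] in
theorem zz_le_one (a : G) : zz a ≤ 1 := max_le zero_le_one (Pool.Agent.H78.OD.z_le_one a)

omit [Fintype G] in
theorem zz_conj (a w : G) : zz (w * a * w⁻¹) = zz a := by
  unfold zz; rw [Pool.Agent.H78.OD.z_conj]

omit [Fintype G] in
theorem zz_of_two {a : G} (h : orderOf a = 2) : zz a = 0 := by
  unfold zz z y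
  rw [h]
  norm_num

omit [Fintype G] in
theorem zz_of_three {a : G} (h : 3 ≤ orderOf a) : zz a = 1 - 3 * y a := by
  unfold zz z
  apply max_eq_right
  have h1 : (3 : ℝ) ≤ orderOf a := by exact_mod_cast h
  have h2 : 1 / (orderOf a : ℝ) ≤ 1 / 3 := one_div_le_one_div_of_le (by norm_num) h1
  unfold y
  linarith

end Pool.Agent.H54.SQ
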