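import Pool.Agent.H54.SQ.Defs

set_option autoImplicit false

/-!
# Group theory of the exceptional case, one element of order at least three (note 5867, (5), (6))

* `pow_four`: `p q = u⁻¹ r` (`u` central), `q p = (p q)⁻¹ = u r`, and `q p = p (p q) p = u⁻¹ p r p`, so
`p r p = u ^ 2 r`; square: `u ^ 4 = 1`.
* `exc_one`: conjugation by `x` on `a` is trivial or `a ↦ b = a ^ t` (and then `b ↦ a`, as `b` is also a
conjugate of `a`; so `a ^ (t * t) = a`). `a = r q p`, and `a` commutes with itself, so an even number of `p, q, r` act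
by `t`, and not none: exactly one, `g`, commutes with `a`.
`g = r`: `r a = q p` is inverted by `q`: `(q r q)(q a q) = (r a)⁻¹`, `q a q = a ^ t`, so `q r q = r a ^ (-1 - t)`
(`r` commutes with `a`), square: `a ^ (-2 (t + 1)) = 1`.
`g = p`: `a p = r q` is inverted by `r`: `(r a r)(r p r) = (a p)⁻¹`, `r p r = a ^ (-t - 1) p`, square.
`g = q`: `a ^ t = r a r = q p r` and `p a p = p r q`, so `p r = q a ^ t`, inverted by `r`:
`r (p r) r = r p = (p r)⁻¹ = a ^ (-t) q`, and `r (q a ^ t) r = (r q r) a`, so `r q r = a ^ (-t) q a⁻¹ =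
q a ^ (-t - 1)`, square.
-/

namespace Pool.Agent.H54.SQ

variable {G : Type} [Group G]

private theorem ExcA_inv {x : G} (hx : x ^ 2 = 1) : x⁻¹ = x := by
  rw [inv_eq_iff_mul_eq_one, ← pow_two, hx]

/-- `x g x = g d` with `x ^ 2 = g ^ 2 = 1`, `g d = d g`: `d ^ 2 = 1` -/
private theorem ExcA_core {x g d : G} (hx : x ^ 2 = 1) (hg : g ^ 2 = 1) (hgd : g * d = d * g)
    (h : x * g * x = g * d) : d ^ 2 = 1 := by
  have e1 : (x * g * x) ^ 2 = 1 := by
    have e : (x * g * x) ^ 2 = x * g * (x ^ 2) * g * x := by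
      simp only [pow_two, mul_assoc]
    rw [e, hx, mul_one, mul_assoc x g g, ← pow_two, hg, mul_one, ← pow_two, hx]
  have e2 : (g * d) ^ 2 = g ^ 2 * d ^ 2 := (show Commute g d from hgd).mul_pow 2
  rw [h, e2, hg, one_mul] at e1
  exact e1

theorem pow_four {u p q r : G} (hu : u ∈ Subgroup.center G) (h : u * p * q * r = 1)
    (hp : p ^ 2 = 1) (hq : q ^ 2 = 1) (hr : r ^ 2 = 1) : u ^ 4 = 1 := by
  have hc : ∀ g, g * u = u * g := Subgroup.mem_center_iff.mp hu
  have hp' := ExcA_inv hp
  have hq' := ExcA_inv hq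
  have hr' := ExcA_inv hr
  -- `r = u p q`
  have e1 : r = u * p * q := by
    have e := eq_inv_of_mul_eq_one_left h
    rw [e, hr']
  -- `q p = u r`
  have e2 : q * p = u * r := by
    have e3 : (u * p * q)⁻¹ = r := by rw [← e1, hr']
    rw [mul_inv_rev, mul_inv_rev, hp', hq', ← mul_assoc, ← inv_inv u] at e3
    rw [mul_inv_eq_iff_eq_mul] at e3
    rw [e3, inv_inv, hc]
  have e3 : p * r * p = r * u ^ 2 := by
    have e4 : p * r * p = u * (q * p) := by
      rw [e1]
      calc p * (u * p * q) * p = (p * u) * p * q * p := by simp only [mul_assoc]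
        _ = u * (p * p) * q * p := by rw [hc]; simp only [mul_assoc]
        _ = u * (q * p) := by rw [← pow_two, hp]; simp only [mul_assoc, one_mul]
    rw [e4, e2, ← mul_assoc, ← pow_two]
    exact ((show Commute r u from hc r).pow_right 2).symm
  have e5 := ExcA_core hp hr ((show Commute r u from hc r).pow_right 2) e3
  rw [← pow_mul] at e5
  exact e5

theorem exc_one {a b p q r : G} (h2 : TwoCls a b) {t : ℕ} (hb : b = a ^ t)
    (h : a * p * q * r = 1) (hp : p ^ 2 = 1) (hq : q ^ 2 = 1) (hr : r ^ 2 = 1)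
    (hnc : ¬ (p * a = a * p ∧ q * a = a * q ∧ r * a = a * r)) : a ^ (2 * (t + 1)) = 1 := by
  have hp' := ExcA_inv hp
  have hq' := ExcA_inv hq
  have hr' := ExcA_inv hr
  have hab : a * b = b * a := by
    rw [hb]
    exact (Commute.refl a).pow_right t
  -- an involution commutes with `a` and `b` or exchanges them
  have key : ∀ x : G, x ^ 2 = 1 → (x * a = a * x ∧ x * b = b * x) ∨ (x * a = b * x ∧ x * b = a * x) := by
    intro x hx
    rcases h2.2.2 x with e | e
    · left
      have e1 : x * a = a * x := mul_inv_eq_iff_eq_mul.mp e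
      refine ⟨e1, ?_⟩
      rw [hb]
      exact (show Commute x a from e1).pow_right t
    · right
      have e1 : x * a = b * x := mul_inv_eq_iff_eq_mul.mp e
      refine ⟨e1, ?_⟩
      have e2 : x * x = 1 := by rw [← pow_two, hx]
      calc x * b = x * (b * x) * x := by rw [mul_assoc, mul_assoc, e2, mul_one]
        _ = x * (x * a) * x := by rw [e1]
        _ = a * x := by rw [← mul_assoc, e2, one_mul]
  -- enough: `(b a) ^ 2 = 1`
  have fin : (b * a) ^ 2 = 1 → a ^ (2 * (t + 1)) = 1 := by
    intro e
    rw [mul_comm 2 (t + 1), pow_mul, pow_succ a t, ← hb]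
    exact e
  have hpqr : p * q * r * a = a * (p * q * r) := by
    have e1 : a * (p * q * r) = 1 := by rw [← h]; simp only [mul_assoc]
    have e2 : p * q * r = a⁻¹ := eq_inv_of_mul_eq_one_right e1
    rw [e2, inv_mul_cancel, mul_inv_cancel]
  have hne : ∀ x y z : G, p * q * r * a = x * (p * q * r) → x = a := by
    intro x _ _ e
    rw [hpqr] at e
    exact (mul_right_cancel e).symm
  rcases key p hp with ⟨pa, pb⟩ | ⟨pa, pb⟩ <;> rcases key q hq with ⟨qa, qb⟩ | ⟨qa, qb⟩ <;>
    rcases key r hr with ⟨ra, rb⟩ | ⟨ra, rb⟩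
  · exact absurd ⟨pa, qa, ra⟩ hnc
  · exfalso
    apply h2.1
    refine (hne b 1 1 ?_).symm
    rw [mul_assoc, ra, ← mul_assoc, mul_assoc p q b, qb, ← mul_assoc, pb]
    simp only [mul_assoc]
  · exfalso
    apply h2.1
    refine (hne b 1 1 ?_).symm
    rw [mul_assoc, ra, ← mul_assoc, mul_assoc p q a, qa, ← mul_assoc, pb]
    simp only [mul_assoc]
  · -- `p` commutes with `a`
    apply fin
    have e1 : q = r * a * p := by
      have e : a * p = (q * r)⁻¹ := by
        apply eq_inv_of_mul_eq_one_left
        rw [← h]; simp only [mul_assoc]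
      rw [mul_inv_rev, hr', hq'] at e
      rw [mul_assoc, e, ← mul_assoc, ← pow_two, hr, one_mul]
    have e2 : r * p * r = p * (b * a)⁻¹ := by
      have e3 : b * (r * p * r) * (a * p) = 1 := by
        calc b * (r * p * r) * (a * p) = (b * r) * p * (r * a * p) := by simp only [mul_assoc]
          _ = (r * a) * p * (r * a * p) := by rw [ra]
          _ = q ^ 2 := by rw [pow_two, ← e1]
          _ = 1 := hq
      have e4 : r * p * r = b⁻¹ * (a * p)⁻¹ := by
        rw [eq_inv_mul_iff_mul_eq]
        exact eq_inv_of_mul_eq_one_left e3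
      rw [e4, mul_inv_rev, hp', mul_inv_rev, ← mul_assoc, ← mul_assoc]
      have c1 : Commute p b := pb
      have c2 : Commute a b := hab
      have e5 : b⁻¹ * p = p * b⁻¹ := (c1.inv_right.eq).symm
      rw [e5, mul_assoc, mul_assoc, (c2.inv_inv).eq]
    have c : Commute p (b * a)⁻¹ := ((show Commute p b from pb).mul_right (show Commute p a from pa)).inv_right
    have e6 := ExcA_core hr hp c.eq e2
    rw [inv_pow, inv_eq_one] at e6
    exact e6
  · exfalso
    apply h2.1
    refine (hne b 1 1 ?_).symm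
    rw [mul_assoc, ra, ← mul_assoc, mul_assoc p q a, qa, ← mul_assoc, pa]
    simp only [mul_assoc]
  · -- `q` commutes with `a`
    apply fin
    have e1 : p = a⁻¹ * r * q := by
      have e : a * p = (q * r)⁻¹ := by
        apply eq_inv_of_mul_eq_one_left
        rw [← h]; simp only [mul_assoc]
      rw [mul_inv_rev, hr', hq'] at e
      rw [mul_assoc, ← e, inv_mul_cancel_left]
    have c1 : Commute q a := qa
    have c2 : Commute q b := qb
    have c3 : Commute a b := hab
    have e2 : r * q * r = q * (b * a) := by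
      have e3 : (b * a)⁻¹ * (r * q * r) * q = 1 := by
        have e4 : r * a⁻¹ = b⁻¹ * r := by
          rw [mul_inv_eq_iff_eq_mul, mul_assoc, ra, inv_mul_cancel_left]
        calc (b * a)⁻¹ * (r * q * r) * q = a⁻¹ * (b⁻¹ * r) * q * r * q := by
              rw [mul_inv_rev]; simp only [mul_assoc]
          _ = a⁻¹ * r * (a⁻¹ * q) * r * q := by rw [← e4]; simp only [mul_assoc]
          _ = a⁻¹ * r * (q * a⁻¹) * r * q := by rw [c1.inv_right.eq]
          _ = p ^ 2 := by rw [pow_two, e1]; simp only [mul_assoc]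
          _ = 1 := hp
      have e5 : (b * a)⁻¹ * (r * q * r) = q⁻¹ := eq_inv_of_mul_eq_one_left e3
      rw [hq', inv_mul_eq_iff_eq_mul] at e5
      rw [e5, ← (c2.mul_right c1).eq]
    exact ExcA_core hr hq (c2.mul_right c1).eq e2
  · -- `r` commutes with `a`
    apply fin
    have e1 : p = q * r * a := by
      have e : p * q * r * a = 1 := by
        rw [hpqr, ← h]; simp only [mul_assoc]
      have e' : p * (q * r * a) = 1 := by rw [← e]; simp only [mul_assoc]
      have e'' := eq_inv_of_mul_eq_one_right e'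
      rw [hp'] at e''
      exact e''.symm
    have c1 : Commute r a := ra
    have c2 : Commute r b := rb
    have e2 : q * r * q = r * (b * a)⁻¹ := by
      have e3 : q * r * q * (r * (b * a)) = 1 := by
        calc q * r * q * (r * (b * a)) = q * r * q * (r * b) * a := by simp only [mul_assoc]
          _ = q * r * (q * b) * r * a := by rw [c2.eq]; simp only [mul_assoc]
          _ = q * r * a * (q * r * a) := by rw [qb]; simp only [mul_assoc]
          _ = p ^ 2 := by rw [pow_two, ← e1]
          _ = 1 := hp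
      have e4 := eq_inv_of_mul_eq_one_left e3
      rw [e4, mul_inv_rev, hr']
      exact ((c2.mul_right c1).inv_right.eq).symm
    have c : Commute r (b * a)⁻¹ := (c2.mul_right c1).inv_right
    have e6 := ExcA_core hq hr c.eq e2
    rw [inv_pow, inv_eq_one] at e6
    exact e6
  · exfalso
    apply h2.1
    refine (hne b 1 1 ?_).symm
    rw [mul_assoc, ra, ← mul_assoc, mul_assoc p q b, qb, ← mul_assoc, pa]
    simp only [mul_assoc]

end Pool.Agent.H54.SQ
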