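import Pool.Agent.H54.SQ.Defs

set_option autoImplicit false

/-!
# Group theory of the exceptional case, two elements of order at least three (note 5867, (6))

* `exc_two`: `p` and `q` act on `a` by conjugation trivially or by `a ↦ b = a ^ t`; then `b ↦ a` and
`a ^ (t * t) = a`. `p q` is in the group generated by `a`, so it acts trivially, so both act by `t` (`hnc`).
Let `c d = a ^ e`, `e` one of `2`, `t + 1`, `2 t` (`c, d` are `a` or `a ^ t`). `p q = a ^ (-e)`, `q = p a ^ (-e)`,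
`1 = q ^ 2 = (p a ^ (-e) p) a ^ (-e) = a ^ (-e t - e)`, so `a ^ (e (t + 1)) = 1`; with `a ^ (t * t) = a` this is
`a ^ (2 (t + 1)) = 1` in the three cases.
* `exc_two'`: `c * p * d * q = c * (p * d * p⁻¹) * p * q`, and `p * d * p⁻¹` is again `a` or `b`.
-/

namespace Pool.Agent.H54.SQ

variable {G : Type} [Group G]

/-- The core: `p` acts on `a` by `t`, `a ^ e p q = 1`. -/
private theorem exc_core {a p q : G} {t e : ℕ} (hpt : p * a * p⁻¹ = a ^ t) (h : a ^ e * p * q = 1)
    (hp : p ^ 2 = 1) (hq : q ^ 2 = 1) : a ^ (e * (t + 1)) = 1 := by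
  have hpi : p⁻¹ = p := by
    rw [inv_eq_iff_mul_eq_one, ← pow_two, hp]
  -- `q⁻¹ = a ^ e * p`
  have h1 : a ^ e * p = q := by
    have : a ^ e * p = q⁻¹ := eq_inv_of_mul_eq_one_left h
    rw [this, inv_eq_iff_mul_eq_one, ← pow_two, hq]
  -- `(a ^ e * p) ^ 2 = 1`
  have h2 : a ^ e * p * (a ^ e * p) = 1 := by
    rw [h1, ← pow_two, hq]
  have h3 : p * a ^ e * p⁻¹ = a ^ (t * e) := by
    rw [← conj_pow, hpt, ← pow_mul]
  have h4 : a ^ e * (p * a ^ e * p⁻¹) = 1 := by
    rw [hpi]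
    simpa [mul_assoc] using h2
  rw [h3, ← pow_add] at h4
  rw [← h4]
  congr 1
  ring

/-- The action of an involution is trivial or by `t`. -/
private theorem act_or {a b : G} (h2 : TwoCls a b) {t : ℕ} (hb : b = a ^ t) (p : G) :
    p * a = a * p ∨ p * a * p⁻¹ = a ^ t := by
  rcases h2.2.2 p with h | h
  · left
    rwa [mul_inv_eq_iff_eq_mul] at h
  · right
    rw [h, hb]

private theorem sq_of_act {a p : G} {t : ℕ} (hpt : p * a * p⁻¹ = a ^ t) (hp : p ^ 2 = 1) :
    a ^ (t * t) = a := by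
  have hpi : p⁻¹ = p := by
    rw [inv_eq_iff_mul_eq_one, ← pow_two, hp]
  have h1 : p * a ^ t * p⁻¹ = a ^ (t * t) := by
    rw [← conj_pow, hpt, ← pow_mul]
  rw [← h1, ← hpt, hpi]
  have : p * (p * a * p) * p = (p * p) * a * (p * p) := by group
  rw [this, ← pow_two, hp]
  simp

theorem exc_two {a b c d p q : G} (h2 : TwoCls a b) {t : ℕ} (hb : b = a ^ t)
    (hc : c = a ∨ c = b) (hd : d = a ∨ d = b) (h : c * d * p * q = 1)
    (hp : p ^ 2 = 1) (hq : q ^ 2 = 1) (hnc : ¬ (p * a = a * p ∧ q * a = a * q)) :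
    a ^ (2 * (t + 1)) = 1 := by
  -- `c * d = a ^ e`
  obtain ⟨e, he, hcd⟩ : ∃ e : ℕ, (e = 2 ∨ e = t + 1 ∨ e = 2 * t) ∧ c * d = a ^ e := by
    rcases hc with rfl | rfl <;> rcases hd with rfl | rfl
    · exact ⟨2, Or.inl rfl, by rw [pow_two]⟩
    · exact ⟨t + 1, Or.inr (Or.inl rfl), by rw [hb, pow_succ']⟩
    · exact ⟨t + 1, Or.inr (Or.inl rfl), by rw [hb, pow_succ]⟩
    · exact ⟨2 * t, Or.inr (Or.inr rfl), by rw [hb, ← pow_add, two_mul]⟩
  rw [hcd] at h
  -- `p` acts by `t`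
  have hpt : p * a * p⁻¹ = a ^ t := by
    rcases act_or h2 hb p with hpa | hpt
    · exfalso
      apply hnc
      refine ⟨hpa, ?_⟩
      have h1 : q = (a ^ e * p)⁻¹ := eq_inv_of_mul_eq_one_right h
      have h3 : Commute (a ^ e * p) a := by
        apply Commute.mul_left
        · exact (Commute.refl a).pow_left e
        · exact hpa
      rw [h1]
      exact h3.inv_left.eq
    · exact hpt
  have hk := exc_core hpt h hp hq
  have hs := sq_of_act hpt hp
  rcases he with rfl | rfl | rfl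
  · exact hk
  · rw [← hk]
    have e1 : (t + 1) * (t + 1) = t * t + (2 * t + 1) := by ring
    have e2 : 2 * (t + 1) = 1 + (2 * t + 1) := by ring
    rw [e1, e2, pow_add a (t * t), hs, pow_add a 1, pow_one]
  · rw [← hk]
    have e1 : 2 * t * (t + 1) = t * t + (t * t + 2 * t) := by ring
    have e2 : 2 * (t + 1) = 1 + (1 + 2 * t) := by ring
    rw [e1, e2, pow_add a (t * t), pow_add a (t * t), hs, pow_add a 1, pow_add a 1, pow_one]

theorem exc_two' {a b c d p q : G} (h2 : TwoCls a b) {t : ℕ} (hb : b = a ^ t)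
    (hc : c = a ∨ c = b) (hd : d = a ∨ d = b) (h : c * p * d * q = 1)
    (hp : p ^ 2 = 1) (hq : q ^ 2 = 1) (hnc : ¬ (p * a = a * p ∧ q * a = a * q)) :
    a ^ (2 * (t + 1)) = 1 := by
  have hd' : p * d * p⁻¹ = a ∨ p * d * p⁻¹ = b := by
    rcases hd with rfl | rfl
    · exact h2.2.2 p
    · obtain ⟨w, hw⟩ := h2.2.1
      have h1 : p * d * p⁻¹ = (p * w) * a * (p * w)⁻¹ := by
        rw [← hw]
        group
      rw [h1]
      exact h2.2.2 (p * w)
  have h' : c * (p * d * p⁻¹) * p * q = 1 := by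
    rw [← h]
    group
  exact exc_two h2 hb hc hd' h' hp hq hnc

end Pool.Agent.H54.SQ
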