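import Pool.Agent.H54.SQ.Defs

set_option autoImplicit false

/-!
# `q a (a ^ t)` for `m ∣ 2 (t + 1)`

`m = orderOf a`. By `P_pow` (file `Pool/Agent/H92/OG/Pow.lean`) the real part of `P a (a ^ t)` is
`(1 / m) ∑_{k < m} k (m - (t k) % m)`, and `q a (a ^ t)` is this over `m ^ 2` (`orderOf_pow_coprime`). To show: it is
at least `(m - 1) ^ 2 / (4 m ^ 2)`.
* `m ∣ t + 1`: `(t k) % m = m - k` for `0 < k < m`, so the sum is `∑ k ^ 2 = (m - 1) m (2 m - 1) / 6`.
* otherwise `m = 2 h` and `t + 1 ≡ h` modulo `m`; `t` is odd (coprime to `m`), so `h` is even. For `k < h` put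
`f k = k (m - (t k) % m)`. `k` even: `t k ≡ - k` modulo `m`, `f k = k ^ 2`, `f (k + h) = (k + h) ^ 2` (`t h ≡ h`);
`k` odd: `t k ≡ h - k`, `f k = k (k + h)`, `f (k + h) = (k + h) k`. So the sum is
`∑_{k < h} (2 k ^ 2 + 2 k h) + h ^ 2 * (h / 2) = (13 / 6) h ^ 3 - 2 h ^ 2 + h / 3`, and `(1 / m ^ 3)` times this is
`13 / 48 - 1 / (2 m) + 1 / (6 m ^ 2)`.
-/

namespace Pool.Agent.H54.SQ

open Finset Pool.Agent.H82.CO Pool.Agent.H92.OG

variable {G : Type} [Group G] [Fintype G]

private theorem half_mod {a k m c : ℕ} (h : (a + k) % m = c) (hk : k < m) :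
    a % m = if k ≤ c then c - k else m + c - k := by
  have hm : 0 < m := by omega
  have h1 := Nat.mod_lt a hm
  rw [Nat.add_mod, Nat.mod_eq_of_lt hk] at h
  rcases lt_or_ge (a % m + k) m with h2 | h2
  · rw [Nat.mod_eq_of_lt h2] at h
    rw [if_pos (by omega)]
    omega
  · rw [Nat.mod_eq_sub_mod h2, Nat.mod_eq_of_lt (by omega)] at h
    rw [if_neg (by omega)]
    omega

private theorem half_odd (c d : ℝ) (N : ℕ) :
    ∑ k ∈ range (2 * N), (if k % 2 = 1 then c + d * (k : ℝ) else 0) = c * N + d * (N : ℝ) ^ 2 := by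
  induction N with
  | zero => simp
  | succ N ih =>
    rw [show 2 * (N + 1) = 2 * N + 1 + 1 by ring, sum_range_succ, sum_range_succ, ih, if_neg (by omega), if_pos (by omega)]
    push_cast
    ring

private theorem half_sumA {m t : ℕ} (hm : 0 < m) (ht : m ∣ t + 1) :
    ∑ k ∈ range m, (k : ℝ) * ((m : ℝ) - ((t * k) % m : ℕ)) = (m - 1) * m * (2 * m - 1) / 6 := by
  rw [← sum_sq_range]
  refine sum_congr rfl fun k hk => ?_
  have hk' := mem_range.1 hk
  rcases Nat.eq_zero_or_pos k with h0 | h0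
  · rw [h0]
    simp
  · have h1 : (t * k + k) % m = 0 := by
      obtain ⟨w, hw⟩ := ht
      have : t * k + k = m * (w * k) := by
        calc t * k + k = (t + 1) * k := by ring
          _ = m * (w * k) := by rw [hw]; ring
      rw [this, Nat.mul_mod_right]
    have h2 := half_mod h1 hk'
    rw [if_neg (by omega)] at h2
    have h3 : (t * k) % m + k = m := by omega
    have h4 : (((t * k) % m : ℕ) : ℝ) + k = m := by exact_mod_cast h3
    have h5 : (((t * k) % m : ℕ) : ℝ) = m - k := by linarith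
    rw [h5]
    ring

private theorem half_sumB {g t w : ℕ} (hg : 0 < g) (hw : w % 2 = 1) (ht : t + 1 = 2 * g * w) :
    ∑ k ∈ range (4 * g), (k : ℝ) * (((4 * g : ℕ) : ℝ) - ((t * k) % (4 * g) : ℕ)) =
      (((4 * g : ℕ) : ℝ) - 1) * ((4 * g : ℕ) : ℝ) * (2 * ((4 * g : ℕ) : ℝ) - 1) / 6 - 4 * (g : ℝ) ^ 3 := by
  have hpt : ∀ k ∈ range (4 * g), (k : ℝ) * (((4 * g : ℕ) : ℝ) - ((t * k) % (4 * g) : ℕ)) =
      (k : ℝ) ^ 2 + (if k % 2 = 1 then (if k < 2 * g then 2 * (g : ℝ) * k else -(2 * (g : ℝ) * k)) else 0) := by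
    intro k hk
    have hk' := mem_range.1 hk
    have h0 : t * k + k = 2 * g * (w * k) := by
      calc t * k + k = (t + 1) * k := by ring
        _ = 2 * g * (w * k) := by rw [ht]; ring
    by_cases ho : k % 2 = 1
    · have h1 : (t * k + k) % (4 * g) = 2 * g := by
        have h2 : (w * k) % 2 = 1 := by rw [Nat.mul_mod, hw, ho]
        obtain ⟨v, hv⟩ : ∃ v, w * k = 2 * v + 1 := ⟨w * k / 2, by omega⟩
        have h3 : 2 * g * (w * k) = 2 * g + 4 * g * v := by rw [hv]; ring
        rw [h0, h3, Nat.add_mul_mod_self_left, Nat.mod_eq_of_lt (by omega)]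
      have h2 := half_mod h1 hk'
      rw [if_pos ho]
      by_cases hkg : k < 2 * g
      · rw [if_pos hkg]
        rw [if_pos (by omega)] at h2
        have h3 : (t * k) % (4 * g) + k = 2 * g := by omega
        have h4 : (((t * k) % (4 * g) : ℕ) : ℝ) + k = 2 * g := by exact_mod_cast h3
        have h5 : (((t * k) % (4 * g) : ℕ) : ℝ) = 2 * g - k := by linarith
        rw [h5]
        push_cast
        ring
      · rw [if_neg hkg]
        have hne : k ≠ 2 * g := by omega
        rw [if_neg (by omega)] at h2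
        have h3 : (t * k) % (4 * g) + k = 6 * g := by omega
        have h4 : (((t * k) % (4 * g) : ℕ) : ℝ) + k = 6 * g := by exact_mod_cast h3
        have h5 : (((t * k) % (4 * g) : ℕ) : ℝ) = 6 * g - k := by linarith
        rw [h5]
        push_cast
        ring
    · rw [if_neg ho, add_zero]
      rcases Nat.eq_zero_or_pos k with h6 | h6
      · rw [h6]
        simp
      · have h1 : (t * k + k) % (4 * g) = 0 := by
          obtain ⟨v, hv⟩ : ∃ v, k = 2 * v := ⟨k / 2, by omega⟩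
          have h3 : 2 * g * (w * k) = 4 * g * (w * v) := by rw [hv]; ring
          rw [h0, h3, Nat.mul_mod_right]
        have h2 := half_mod h1 hk'
        rw [if_neg (by omega)] at h2
        have h3 : (t * k) % (4 * g) + k = 4 * g := by omega
        have h4 : (((t * k) % (4 * g) : ℕ) : ℝ) + k = 4 * g := by exact_mod_cast h3
        have h5 : (((t * k) % (4 * g) : ℕ) : ℝ) = 4 * g - k := by linarith
        rw [h5]
        push_cast
        ring
  rw [sum_congr rfl hpt, sum_add_distrib, sum_sq_range]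
  have h1 : ∑ k ∈ range (4 * g), (if k % 2 = 1 then (if k < 2 * g then 2 * (g : ℝ) * k else -(2 * (g : ℝ) * k)) else 0) =
      -(4 * (g : ℝ) ^ 3) := by
    rw [show 4 * g = 2 * g + 2 * g by ring, sum_range_add]
    have h2 : ∑ k ∈ range (2 * g), (if k % 2 = 1 then (if k < 2 * g then 2 * (g : ℝ) * k else -(2 * (g : ℝ) * k)) else 0) =
        0 * g + (2 * (g : ℝ)) * (g : ℝ) ^ 2 := by
      rw [← half_odd]
      refine sum_congr rfl fun k hk => ?_
      rw [if_pos (mem_range.1 hk)]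
      simp only [zero_add]
    have h3 : ∑ k ∈ range (2 * g), (if (2 * g + k) % 2 = 1 then (if 2 * g + k < 2 * g then 2 * (g : ℝ) * ((2 * g + k : ℕ) : ℝ)
        else -(2 * (g : ℝ) * ((2 * g + k : ℕ) : ℝ))) else 0) =
        (-(4 * (g : ℝ) ^ 2)) * g + (-(2 * (g : ℝ))) * (g : ℝ) ^ 2 := by
      rw [← half_odd]
      refine sum_congr rfl fun k _ => ?_
      rw [if_neg (show ¬ 2 * g + k < 2 * g by omega)]
      have h4 : (2 * g + k) % 2 = k % 2 := by omega
      rw [h4]
      by_cases ho : k % 2 = 1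
      · rw [if_pos ho, if_pos ho]
        push_cast
        ring
      · rw [if_neg ho, if_neg ho]
    rw [h2, h3]
    ring
  rw [h1]
  ring

private theorem half_sum {m t : ℕ} (hm : 0 < m) (hc : t.Coprime m) (ht : m ∣ 2 * (t + 1)) :
    ((m : ℝ) - 1) ^ 2 * m / 4 ≤ ∑ k ∈ range m, (k : ℝ) * ((m : ℝ) - ((t * k) % m : ℕ)) := by
  have hm1 : (1 : ℝ) ≤ m := by exact_mod_cast hm
  by_cases hd : m ∣ t + 1
  · rw [half_sumA hm hd]
    have h1 : 0 ≤ ((m : ℝ) - 1) * m * (m + 1) := mul_nonneg (mul_nonneg (by linarith) (by linarith)) (by linarith)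
    nlinarith
  · obtain ⟨w, hw⟩ := ht
    have hwo : w % 2 = 1 := by
      by_contra hcon
      obtain ⟨v, hv⟩ : ∃ v, w = 2 * v := ⟨w / 2, by omega⟩
      apply hd
      refine ⟨v, ?_⟩
      have : 2 * (t + 1) = 2 * (m * v) := by rw [hw, hv]; ring
      omega
    have hme : m % 2 = 0 := by
      have h1 : (m * w) % 2 = 0 := by rw [← hw]; omega
      rw [Nat.mul_mod, hwo] at h1
      omega
    obtain ⟨h, rfl⟩ : ∃ h, m = 2 * h := ⟨m / 2, by omega⟩
    have hth : t + 1 = h * w := by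
      have : 2 * (t + 1) = 2 * (h * w) := by rw [hw]; ring
      omega
    have hto : t % 2 = 1 := by
      have h1 : t.Coprime 2 := hc.coprime_dvd_right ⟨h, rfl⟩
      exact Nat.odd_iff.1 (Nat.coprime_two_right.1 h1)
    have hhe : h % 2 = 0 := by
      have h1 : (h * w) % 2 = 0 := by rw [← hth]; omega
      rw [Nat.mul_mod, hwo] at h1
      omega
    obtain ⟨g, rfl⟩ : ∃ g, h = 2 * g := ⟨h / 2, by omega⟩
    have hg : 0 < g := by omega
    have h4 : 2 * (2 * g) = 4 * g := by ring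
    have h5 := half_sumB hg hwo hth
    rw [h4, h5]
    have hg1 : (1 : ℝ) ≤ g := by exact_mod_cast hg
    have h6 : 0 ≤ (g : ℝ) * ((g : ℝ) ^ 2 - 1) := mul_nonneg (by linarith) (by nlinarith)
    push_cast
    nlinarith

theorem q_half {a : G} {t : ℕ} (hc : t.Coprime (orderOf a)) (ht : orderOf a ∣ 2 * (t + 1)) :
    (1 - y a) * (1 - y a) / 4 ≤ q a (a ^ t) := by
  have hm := orderOf_pos a
  have ho : orderOf (a ^ t) = orderOf a := Nat.Coprime.orderOf_pow hc.symm
  have h1 := half_sum hm hc ht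
  have hm' : (0 : ℝ) < orderOf a := by exact_mod_cast hm
  rw [q, P_pow a hc, Complex.ofReal_re, ho, y]
  generalize ∑ k ∈ range (orderOf a), (k : ℝ) * ((orderOf a : ℝ) - ((t * k) % orderOf a : ℕ)) = S at *
  have h2 : (1 - 1 / (orderOf a : ℝ)) * (1 - 1 / (orderOf a : ℝ)) / 4 =
      (((orderOf a : ℝ) - 1) ^ 2 * orderOf a / 4) / ((orderOf a : ℝ) * (orderOf a * orderOf a)) := by
    field_simp
  have h3 : 1 / (orderOf a : ℝ) * S / ((orderOf a : ℝ) * orderOf a) = S / ((orderOf a : ℝ) * (orderOf a * orderOf a)) := by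
    field_simp
  rw [h2, h3]
  exact div_le_div_of_nonneg_right h1 (by positivity)

end Pool.Agent.H54.SQ
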