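import Pool.Agent.H54.SQ.Defs

set_option autoImplicit false

/-!
# Classes with two elements

* `comm`: `w = b`: `b a b⁻¹ = b` would give `a = b`. `symm`: easy.
* `sum_two`: `w ↦ w₀ w` (`w₀ a w₀⁻¹ = b`, so `w₀ b w₀⁻¹ = a`) exchanges the `w` with `w a w⁻¹ = a` and those with
`w a w⁻¹ = b`, so `∑ f (w a w⁻¹) = ∑ f (w₀ w a w⁻¹ w₀⁻¹)` and the sum of the two terms is `f a + f b` for every `w`.
* `not_three`: the centralizer of `{a, b}` contains `a` and `b`; if three of the `s i` are in it so is the fourth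
(`Pool.Agent.H78.OD.mem_of_prod_mem`), and it is `G`, so `a` is central and its class is `{a}`.
-/

namespace Pool.Agent.H54.SQ

open Finset Pool.Agent.H82.CO Pool.Agent.H92.OG

variable {G : Type} [Group G] [Fintype G]

omit [Fintype G] in
theorem TwoCls.symm {a b : G} (h : TwoCls a b) : TwoCls b a := by
  obtain ⟨hne, ⟨w, hw⟩, hall⟩ := h
  refine ⟨hne.symm, ⟨w⁻¹, ?_⟩, fun v => ?_⟩
  · rw [← hw]; group
  · have h1 : v * b * v⁻¹ = (v * w) * a * (v * w)⁻¹ := by rw [← hw]; group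
    rw [h1]
    exact (hall (v * w)).symm

omit [Fintype G] in
theorem TwoCls.comm {a b : G} (h : TwoCls a b) : a * b = b * a := by
  obtain ⟨hne, -, hall⟩ := h
  rcases hall b with h1 | h1
  · exact (mul_inv_eq_iff_eq_mul.1 h1).symm
  · rw [mul_inv_eq_iff_eq_mul] at h1
    exact absurd (mul_left_cancel h1) hne

theorem sum_two {a b : G} (h : TwoCls a b) (f : G → ℝ) :
    ∑ w : G, f (w * a * w⁻¹) = (Nat.card G : ℝ) / 2 * (f a + f b) := by
  have hs := h.symm
  obtain ⟨hne, ⟨w₀, hw₀⟩, hall⟩ := h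
  have hb : w₀ * b * w₀⁻¹ = a := by
    rcases hs.2.2 w₀ with h1 | h1
    · exact absurd (mul_left_cancel (mul_right_cancel (hw₀.trans h1.symm))) hne
    · exact h1
  have h2 : ∑ w : G, f (w * a * w⁻¹) = ∑ w : G, f (w₀ * (w * a * w⁻¹) * w₀⁻¹) := by
    rw [← Equiv.sum_comp (Equiv.mulLeft w₀)]
    refine Finset.sum_congr rfl fun w _ => ?_
    congr 1
    simp only [Equiv.coe_mulLeft]
    group
  have h3 : ∑ w : G, f (w * a * w⁻¹) + ∑ w : G, f (w * a * w⁻¹) = (Nat.card G : ℝ) * (f a + f b) := by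
    nth_rewrite 2 [h2]
    rw [← Finset.sum_add_distrib, Nat.card_eq_fintype_card]
    have h4 : ∀ w ∈ (Finset.univ : Finset G), f (w * a * w⁻¹) + f (w₀ * (w * a * w⁻¹) * w₀⁻¹) = f a + f b := by
      intro w _
      rcases hall w with h5 | h5
      · rw [h5, hw₀]
      · rw [h5, hb, add_comm]
    rw [Finset.sum_congr rfl h4, Finset.sum_const, Finset.card_univ, nsmul_eq_mul]
  linarith

theorem not_three (hna : ∃ a b : G, a * b ≠ b * a) (s : Fin 4 → G)
    (hprod : (List.ofFn s).prod = 1) (hgen : Subgroup.closure (Set.range s) = ⊤) {a b : G}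
    (h : TwoCls a b) (q : Fin 4) (h3 : ∀ i, i ≠ q → s i = a ∨ s i = b) : False := by
  have hc := h.comm
  obtain ⟨hne, ⟨w₀, hw₀⟩, -⟩ := h
  set A : Subgroup G := Subgroup.centralizer {a, b} with hA
  have ha : a ∈ A := by
    rw [hA, Subgroup.mem_centralizer_iff]
    rintro x (rfl | rfl)
    · rfl
    · exact hc.symm
  have hb : b ∈ A := by
    rw [hA, Subgroup.mem_centralizer_iff]
    rintro x (rfl | rfl)
    · exact hc
    · rfl
  have hall : ∀ i, i ≠ q → s i ∈ A := by
    intro i hi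
    rcases h3 i hi with h1 | h1
    · rw [h1]; exact ha
    · rw [h1]; exact hb
  have hq : s q ∈ A := Pool.Agent.H78.OD.mem_of_prod_mem A s (by rw [hprod]; exact A.one_mem) q hall
  have htop : A = ⊤ := by
    rw [eq_top_iff, ← hgen, Subgroup.closure_le]
    rintro _ ⟨i, rfl⟩
    by_cases hiq : i = q
    · rw [hiq]; exact hq
    · exact hall i hiq
  have hw : w₀ ∈ A := htop ▸ Subgroup.mem_top w₀
  rw [hA, Subgroup.mem_centralizer_iff] at hw
  have h4 := hw a (Or.inl rfl)
  apply hne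
  rw [← hw₀, ← h4]
  group

end Pool.Agent.H54.SQ
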