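import Pool.Agent.H54.SQ.Ge
import Pool.Agent.H54.SQ.Half
import Pool.Agent.H54.SQ.Two
import Pool.Agent.H54.SQ.ExcA
import Pool.Agent.H54.SQ.ExcB

set_option autoImplicit false

/-!
# The exceptional case (note 5867, (6))

* `rot`: `Fin 4`, four cases; `s 0 * s 1 * s 2 * s 3 = 1` and conjugation.
* `exc_q_one`, `exc_q_two`: put `a = s i`. `b` is conjugate to `a`, so it has the same order `m ≥ 3` (and `b ≠ 1`).
If the cyclic groups generated by `a` and `b` differ: `ge_quarter`. Otherwise `b = a ^ t` with `t` prime to `m` (as in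
`Pool.Agent.H92.OG.q_same`), and `m ∣ 2 (t + 1)` by `exc_one` resp. `exc_two`, `exc_two'` (with `rot` at `i` or at
`k`), so `q_half` applies. The hypothesis `hnc`: if all the other three (two) elements commute with `a` then `a` is
central in the closure of the `s i` (`b` commutes with `a`, `TwoCls.comm`), which is `G`, but `a` is not central as
`w a w⁻¹ = b ≠ a` for some `w`.
-/

namespace Pool.Agent.H54.SQ

open Finset Pool.Agent.H82.CO Pool.Agent.H92.OG

variable {G : Type} [Group G] [Fintype G]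

omit [Fintype G] in
private theorem Exc_rotate {a b c d : G} (h : a * b * c * d = 1) : b * c * d * a = 1 := by
  have h1 : a * (b * c * d) = 1 := by rw [← h]; simp only [mul_assoc]
  rw [eq_inv_of_mul_eq_one_right h1, inv_mul_cancel]

omit [Fintype G] in
theorem rot (s : Fin 4 → G) (hprod : (List.ofFn s).prod = 1) (i : Fin 4) :
    s i * s (i + 1) * s (i + 2) * s (i + 3) = 1 := by
  have h0 : s 0 * s 1 * s 2 * s 3 = 1 := by
    rw [← hprod]
    simp only [List.ofFn_succ, List.ofFn_zero, List.prod_cons, List.prod_nil, mul_one, mul_assoc]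
    rfl
  have h1 := Exc_rotate h0
  have h2 := Exc_rotate h1
  have h3 := Exc_rotate h2
  fin_cases i
  · exact h0
  · exact h1
  · exact h2
  · exact h3

omit [Fintype G] in
private theorem Exc_central {s : Fin 4 → G} (hgen : Subgroup.closure (Set.range s) = ⊤) {a b : G}
    (h2 : TwoCls a b) (h : ∀ l, s l * a = a * s l) : False := by
  obtain ⟨hne, ⟨w, hw⟩, -⟩ := h2
  have hle : Subgroup.closure (Set.range s) ≤ Subgroup.centralizer {a} := by
    rw [Subgroup.closure_le]
    rintro _ ⟨l, rfl⟩
    rw [SetLike.mem_coe, Subgroup.mem_centralizer_iff]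
    rintro x rfl
    exact (h l).symm
  have hwm : w ∈ Subgroup.centralizer {a} := hle (hgen ▸ Subgroup.mem_top w)
  rw [Subgroup.mem_centralizer_iff] at hwm
  have h4 := hwm a rfl
  apply hne
  rw [← hw, ← h4]
  group

private theorem Exc_main {a b : G} (h2 : TwoCls a b) (hi : 3 ≤ orderOf a)
    (hpow : ∀ t : ℕ, b = a ^ t → a ^ (2 * (t + 1)) = 1) :
    (1 - y a) * (1 - y a) / 4 - 1 / 48 * (zz a * zz a) ≤ q a b := by
  obtain ⟨w, hw⟩ := h2.2.1
  have hob : orderOf b = orderOf a := by rw [← hw]; exact Pool.Agent.H78.OD.orderOf_conj a w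
  have hyb : y b = y a := by rw [y, y, hob]
  have hzb : zz b = zz a := by rw [zz, zz, z, z, hyb]
  have ha : a ≠ 1 := by
    rintro rfl
    rw [orderOf_one] at hi
    omega
  have hb : b ≠ 1 := by
    rintro rfl
    rw [orderOf_one] at hob
    omega
  by_cases hz : Subgroup.zpowers a = Subgroup.zpowers b
  · have hbm : b ∈ Subgroup.zpowers a := by rw [hz]; exact Subgroup.mem_zpowers b
    rw [← mem_powers_iff_mem_zpowers] at hbm
    obtain ⟨t, ht⟩ := hbm
    simp only at ht
    have hc : t.Coprime (orderOf a) := by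
      have hm := orderOf_pos a
      have h1 := orderOf_pow (n := t) a
      rw [ht, hob] at h1
      have h3 := Nat.gcd_dvd_left (orderOf a) t
      have h5 : orderOf a = orderOf a / Nat.gcd (orderOf a) t * Nat.gcd (orderOf a) t :=
        (Nat.div_mul_cancel h3).symm
      rw [← h1] at h5
      have h2 : Nat.gcd (orderOf a) t = 1 := by nlinarith
      rw [Nat.coprime_comm]
      exact h2
    have hdvd : orderOf a ∣ 2 * (t + 1) := orderOf_dvd_of_pow_eq_one (hpow t ht.symm)
    have h1 := q_half hc hdvd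
    rw [ht] at h1
    have h3 : 0 ≤ zz a * zz a := mul_nonneg (zz_nonneg a) (zz_nonneg a)
    linarith
  · have h1 := ge_quarter ha hb hob.symm hz
    rw [hyb, hzb] at h1
    exact h1

omit [Fintype G] in
private theorem Exc_sq {x : G} (h : orderOf x = 2) : x ^ 2 = 1 := by
  rw [← h]; exact pow_orderOf_eq_one x

private theorem Exc_fin : ∀ i l : Fin 4, l = i ∨ l = i + 1 ∨ l = i + 2 ∨ l = i + 3 := by decide

theorem exc_q_one (s : Fin 4 → G) (hprod : (List.ofFn s).prod = 1)
    (hgen : Subgroup.closure (Set.range s) = ⊤) (i : Fin 4) (hi : 3 ≤ orderOf (s i))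
    (ho : ∀ k, k ≠ i → orderOf (s k) = 2) {b : G} (h2 : TwoCls (s i) b) :
    (1 - y (s i)) * (1 - y (s i)) / 4 - 1 / 48 * (zz (s i) * zz (s i)) ≤ q (s i) b := by
  refine Exc_main h2 hi fun t ht => ?_
  have e1 : i + 1 ≠ i := by clear * -; revert i; decide
  have e2 : i + 2 ≠ i := by clear * -; revert i; decide
  have e3 : i + 3 ≠ i := by clear * -; revert i; decide
  refine exc_one h2 ht (rot s hprod i) (Exc_sq (ho _ e1)) (Exc_sq (ho _ e2)) (Exc_sq (ho _ e3)) ?_
  rintro ⟨h3, h4, h5⟩
  refine Exc_central hgen h2 fun l => ?_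
  rcases Exc_fin i l with rfl | rfl | rfl | rfl
  · rfl
  · exact h3
  · exact h4
  · exact h5

theorem exc_q_two (s : Fin 4 → G) (hprod : (List.ofFn s).prod = 1)
    (hgen : Subgroup.closure (Set.range s) = ⊤) (i k : Fin 4) (hik : i ≠ k)
    (hi : 3 ≤ orderOf (s i)) {b : G} (h2 : TwoCls (s i) b) (hk : s k = s i ∨ s k = b)
    (ho : ∀ l, l ≠ i → l ≠ k → orderOf (s l) = 2) :
    (1 - y (s i)) * (1 - y (s i)) / 4 - 1 / 48 * (zz (s i) * zz (s i)) ≤ q (s i) b := by
  refine Exc_main h2 hi fun t ht => ?_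
  have hkc : s k * s i = s i * s k := by
    rcases hk with h | h
    · rw [h]
    · rw [h]; exact h2.comm.symm
  have hr := rot s hprod i
  rcases Exc_fin i k with rfl | rfl | rfl | rfl
  · exact absurd rfl hik
  · have e1 : i + 2 ≠ i := by clear * -; revert i; decide
    have e2 : i + 2 ≠ i + 1 := by clear * -; revert i; decide
    have e3 : i + 3 ≠ i := by clear * -; revert i; decide
    have e4 : i + 3 ≠ i + 1 := by clear * -; revert i; decide
    refine exc_two h2 ht (Or.inl rfl) hk hr (Exc_sq (ho _ e1 e2)) (Exc_sq (ho _ e3 e4)) ?_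
    rintro ⟨h3, h4⟩
    refine Exc_central hgen h2 fun l => ?_
    rcases Exc_fin i l with rfl | rfl | rfl | rfl
    · rfl
    · exact hkc
    · exact h3
    · exact h4
  · have e1 : i + 1 ≠ i := by clear * -; revert i; decide
    have e2 : i + 1 ≠ i + 2 := by clear * -; revert i; decide
    have e3 : i + 3 ≠ i := by clear * -; revert i; decide
    have e4 : i + 3 ≠ i + 2 := by clear * -; revert i; decide
    refine exc_two' h2 ht (Or.inl rfl) hk hr (Exc_sq (ho _ e1 e2)) (Exc_sq (ho _ e3 e4)) ?_
    rintro ⟨h3, h4⟩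
    refine Exc_central hgen h2 fun l => ?_
    rcases Exc_fin i l with rfl | rfl | rfl | rfl
    · rfl
    · exact h3
    · exact hkc
    · exact h4
  · have e1 : i + 1 ≠ i := by clear * -; revert i; decide
    have e2 : i + 1 ≠ i + 3 := by clear * -; revert i; decide
    have e3 : i + 2 ≠ i := by clear * -; revert i; decide
    have e4 : i + 2 ≠ i + 3 := by clear * -; revert i; decide
    have hr' : s (i + 3) * s i * s (i + 1) * s (i + 2) = 1 :=
      Exc_rotate (Exc_rotate (Exc_rotate hr))
    refine exc_two h2 ht hk (Or.inl rfl) hr' (Exc_sq (ho _ e1 e2)) (Exc_sq (ho _ e3 e4)) ?_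
    rintro ⟨h3, h4⟩
    refine Exc_central hgen h2 fun l => ?_
    rcases Exc_fin i l with rfl | rfl | rfl | rfl
    · rfl
    · exact h3
    · exact h4
    · exact hkc

end Pool.Agent.H54.SQ
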