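import Pool.Agent.H54.SQ.Four

set_option autoImplicit false

/-!
# One or two of the elements have order at least three
-/

namespace Pool.Agent.H54.SQ

open Finset Pool.Agent.H82.CO Pool.Agent.H92.OG

variable {G : Type} [Group G] [Fintype G]

omit [Fintype G] in
theorem TwoCls.orderOf_eq {a b : G} (h : TwoCls a b) : orderOf b = orderOf a := by
  obtain ⟨w, hw⟩ := h.2.1
  rw [← hw, Pool.Agent.H78.OD.orderOf_conj]

omit [Fintype G] in
theorem TwoCls.not_central {a b : G} (h : TwoCls a b) : a ∉ Subgroup.center G := by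
  intro hc
  obtain ⟨w, hw⟩ := h.2.1
  apply h.1
  rw [← hw, Subgroup.mem_center_iff.1 hc w]
  group

/-- the mean over a class of two elements -/
theorem sum_exc {a b c : G} (h : TwoCls a b) (ha : a ≠ 1) (hc : c = a ∨ c = b)
    (hq : (1 - y a) * (1 - y a) / 4 - 1 / 48 * (zz a * zz a) ≤ q a b) :
    (Nat.card G : ℝ) * ((1 - y a) * (1 - y a) / 4 - 5 / 96 * (zz a * zz a)) ≤
      ∑ w : G, q a (w * c * w⁻¹) := by
  have hn : (0 : ℝ) < Nat.card G := by exact_mod_cast Nat.card_pos
  have h1 : ∑ w : G, q a (w * c * w⁻¹) = (Nat.card G : ℝ) / 2 * (q a a + q a b) := by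
    rcases hc with rfl | rfl
    · exact sum_two h (fun x => q c x)
    · rw [sum_two h.symm (fun x => q a x)]
      ring
  rw [h1]
  have h2 := ge_self ha
  nlinarith

/-- the bound in the exceptional case; `S` is the set of the indices of the elements of order at least three -/
theorem of_exc (s : Fin 4 → G) (hs : ∀ i, s i ≠ 1) (C : ℝ)
    (hE : ∀ i j, 3 ≤ orderOf (s i) → 3 ≤ orderOf (s j) →
      (Nat.card G : ℝ) * ((1 - y (s i)) * (1 - y (s j)) / 4 - 5 / 96 * (zz (s i) * zz (s j))) ≤
      ∑ w : G, q (s i) (w * s j * w⁻¹))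
    (hC : C ≤ 9 * (2 * (∑ i, zz (s i)) + ∑ i, jj (s i)) ^ 2 - 135 / 2 * (∑ i, zz (s i)) ^ 2) :
    C / 1296 * (Nat.card G : ℝ) - 1 ≤ (quadInv s + extInv s).re := by
  have hord : ∀ i, 3 ≤ orderOf (s i) ∨ orderOf (s i) = 2 := by
    intro i
    have h1 : orderOf (s i) ≠ 1 := by rw [Ne, orderOf_eq_one_iff]; exact hs i
    have h2 := orderOf_pos (s i)
    omega
  refine of_E s hs (fun i j => 5 / 96 * (zz (s i) * zz (s j))) C ?_ ?_
  · intro i j
    have hgen := sum_ge (hs i) (hs j)
    rcases hord i with hi | hi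
    · rcases hord j with hj | hj
      · exact hE i j hi hj
      · rw [zz_of_two hj] at hgen ⊢
        simpa using hgen
    · rw [zz_of_two hi] at hgen ⊢
      simpa using hgen
  · refine le_trans hC (le_of_eq ?_)
    have h1 : ∑ i, ∑ j, 5 / 96 * (zz (s i) * zz (s j)) = 5 / 96 * (∑ i, zz (s i)) ^ 2 := by
      rw [sq, Finset.sum_mul_sum]
      simp only [Finset.mul_sum]
    rw [h1]
    ring

theorem ineq_not_conj {x y : ℝ} (hx : 0 ≤ x) (hx1 : x ≤ 1) (hy : 0 ≤ y) (hy1 : y ≤ 1) :
    5 ≤ 9 * (2 * (x + y) + 2) ^ 2 - 60 * (x + y) ^ 2 - 48 * (x ^ 2 + y ^ 2 / 2) := by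
  nlinarith [mul_nonneg hx (sub_nonneg.2 hx1), mul_nonneg hy (sub_nonneg.2 hy1),
    mul_nonneg (sub_nonneg.2 hx1) (sub_nonneg.2 hy1), mul_nonneg hx (sub_nonneg.2 hy1),
    mul_nonneg hy (sub_nonneg.2 hx1)]

section cases

variable (s : Fin 4 → G) (hna : ∃ a b : G, a * b ≠ b * a)
  (hprod : (List.ofFn s).prod = 1) (hgen : Subgroup.closure (Set.range s) = ⊤)
  (hs : ∀ i, s i ≠ 1)

include hna hprod hgen hs in
theorem case_two (i k : Fin 4) (hik : i ≠ k) (hi : 3 ≤ orderOf (s i)) (hk : 3 ≤ orderOf (s k))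
    (ho : ∀ l, l ≠ i → l ≠ k → orderOf (s l) = 2) :
    5 / 1296 * (Nat.card G : ℝ) - 1 ≤ (quadInv s + extInv s).re := by
  have hsum : ∀ f : Fin 4 → ℝ, (∀ l, l ≠ i → l ≠ k → f l = 0) → ∑ l, f l = f i + f k := by
    intro f hf
    exact sum_eq_add i k hik (fun l _ hl => hf l hl.1 hl.2) (fun h => absurd (mem_univ _) h)
      (fun h => absurd (mem_univ _) h)
  have hZ : ∑ l, zz (s l) = zz (s i) + zz (s k) := hsum _ fun l h1 h2 => zz_of_two (ho l h1 h2)
  have hJ : ∑ l, jj (s l) = 2 := by
    rw [hsum (fun l => jj (s l)) fun l h1 h2 => jj_of_two (ho l h1 h2), jj_of_three hi,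
      jj_of_three hk]
    norm_num
  have hzi := zz_nonneg (s i)
  have hzk := zz_nonneg (s k)
  have hzi1 := zz_le_one (s i)
  have hzk1 := zz_le_one (s k)
  have hQ : ∑ u, zz (s u) * ∑ v, (cnt (s u) (s v) : ℝ) / Nat.card G * zz (s v) =
      (cnt (s i) (s i) : ℝ) / Nat.card G * zz (s i) ^ 2 +
      ((cnt (s i) (s k) : ℝ) / Nat.card G + (cnt (s k) (s i) : ℝ) / Nat.card G) *
        (zz (s i) * zz (s k)) + (cnt (s k) (s k) : ℝ) / Nat.card G * zz (s k) ^ 2 := by
    rw [hsum (fun u => zz (s u) * ∑ v, (cnt (s u) (s v) : ℝ) / Nat.card G * zz (s v))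
      (fun l h1 h2 => by rw [zz_of_two (ho l h1 h2), zero_mul]),
      hsum (fun v => (cnt (s i) (s v) : ℝ) / Nat.card G * zz (s v))
        (fun l h1 h2 => by rw [zz_of_two (ho l h1 h2), mul_zero]),
      hsum (fun v => (cnt (s k) (s v) : ℝ) / Nat.card G * zz (s v))
        (fun l h1 h2 => by rw [zz_of_two (ho l h1 h2), mul_zero])]
    ring
  by_cases hconj : ∃ w : G, w * s k * w⁻¹ = s i
  · -- conjugate
    have hnc : s i ∉ Subgroup.center G := by
      intro hc
      obtain ⟨w, hw⟩ := hconj
      have h1 := conj_central hw hc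
      exact hik (one_central s hna hprod hgen hc (by rw [h1]; exact hc))
    have hnck : s k ∉ Subgroup.center G := by
      intro hc
      obtain ⟨w, hw⟩ := hconj
      apply hnc
      rw [← hw, Subgroup.mem_center_iff.1 hc w]
      have : s k * w * w⁻¹ = s k := by group
      rw [this]
      exact hc
    have hzz : zz (s k) = zz (s i) := by
      obtain ⟨w, hw⟩ := hconj
      rw [← hw, zz_conj]
    by_cases h2 : ∃ b, TwoCls (s i) b
    · -- the exceptional case
      obtain ⟨b, hb⟩ := h2
      have hkab : s k = s i ∨ s k = b := by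
        obtain ⟨w, hw⟩ := hconj
        have h5 : s k = w⁻¹ * s i * w⁻¹⁻¹ := by rw [← hw]; group
        rw [h5]
        exact hb.2.2 w⁻¹
      have hqi := exc_q_two s hprod hgen i k hik hi hb hkab ho
      -- the partner of `s k`
      have hkk : ∃ b', TwoCls (s k) b' ∧ (s i = s k ∨ s i = b') := by
        rcases hkab with h | h
        · exact ⟨b, by rw [h]; exact hb, Or.inl h.symm⟩
        · exact ⟨s i, by rw [h]; exact hb.symm, Or.inr rfl⟩
      obtain ⟨b', hb', hi'⟩ := hkk
      have hqk := exc_q_two s hprod hgen k i hik.symm hk hb' hi' (fun l h1 h2 => ho l h2 h1)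
      have hy : y (s k) = y (s i) := by
        obtain ⟨w, hw⟩ := hconj
        rw [← hw, Pool.Agent.H78.OD.y_conj]
      have hii := sum_exc hb (hs i) (Or.inl rfl) hqi
      have hik' := sum_exc hb (hs i) hkab hqi
      have hkk' := sum_exc hb' (hs k) (Or.inl rfl) hqk
      have hki' := sum_exc hb' (hs k) hi' hqk
      apply of_exc s hs
      · intro u v hu hv
        have hu' : u = i ∨ u = k := by
          by_contra hcon
          push Not at hcon
          have := ho u hcon.1 hcon.2
          omega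
        have hv' : v = i ∨ v = k := by
          by_contra hcon
          push Not at hcon
          have := ho v hcon.1 hcon.2
          omega
        rcases hu' with rfl | rfl <;> rcases hv' with rfl | rfl
        · exact hii
        · rw [hy, hzz]; exact hik'
        · rw [← hy, ← hzz]; exact hki'
        · exact hkk'
      · rw [hZ, hJ, hzz]
        nlinarith
    · push Not at h2
      have h2k : ∀ c, ¬ TwoCls (s k) c := by
        intro c hc
        obtain ⟨w, hw⟩ := hconj
        have h3 : s i = s k ∨ s i = c := by rw [← hw]; exact hc.2.2 w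
        rcases h3 with h3 | h3
        · exact h2 c (by rw [h3]; exact hc)
        · exact h2 (s k) (by rw [h3]; exact hc.symm)
      apply of_p s hs
      rw [hQ, hJ, hZ, hzz]
      have p1 := p_third (b := s i) hnc h2
      have p2 := p_third (b := s k) hnc h2
      have p3 := p_third (b := s i) hnck h2k
      have p4 := p_third (b := s k) hnck h2k
      set z := zz (s i)
      set A := (cnt (s i) (s i) : ℝ) / Nat.card G
      set B := (cnt (s i) (s k) : ℝ) / Nat.card G
      set C := (cnt (s k) (s i) : ℝ) / Nat.card G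
      set D := (cnt (s k) (s k) : ℝ) / Nat.card G
      have h5 : A * z ^ 2 + (B + C) * (z * z) + D * z ^ 2 ≤ 4 / 3 * z ^ 2 := by
        nlinarith [sq_nonneg z]
      nlinarith
  · -- not conjugate
    push Not at hconj
    have hp1 : (cnt (s i) (s k) : ℝ) / Nat.card G = 0 := p_zero hconj
    have hp2 : (cnt (s k) (s i) : ℝ) / Nat.card G = 0 := by
      apply p_zero
      intro w hw
      apply hconj w⁻¹
      rw [← hw]
      group
    apply of_p s hs
    rw [hQ, hJ, hZ, hp1, hp2]
    by_cases hc : s i ∈ Subgroup.center G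
    · have hck : s k ∉ Subgroup.center G := fun h => hik (one_central s hna hprod hgen hc h)
      have p1 := p_le_one (s i) (s i)
      have p4 := p_half (b := s k) hck
      have h6 := ineq_not_conj hzi hzi1 hzk hzk1
      have h7 := mul_le_mul_of_nonneg_right p1 (sq_nonneg (zz (s i)))
      have h8 := mul_le_mul_of_nonneg_right p4 (sq_nonneg (zz (s k)))
      linarith
    · have p1 := p_half (b := s i) hc
      have p4 := p_le_one (s k) (s k)
      have h6 := ineq_not_conj hzk hzk1 hzi hzi1
      have h7 := mul_le_mul_of_nonneg_right p1 (sq_nonneg (zz (s i)))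
      have h8 := mul_le_mul_of_nonneg_right p4 (sq_nonneg (zz (s k)))
      rw [add_comm (zz (s k)) (zz (s i))] at h6
      linarith

include hprod hgen hs in
theorem case_one (i : Fin 4) (hi : 3 ≤ orderOf (s i))
    (ho : ∀ l, l ≠ i → orderOf (s l) = 2) :
    5 / 1296 * (Nat.card G : ℝ) - 1 ≤ (quadInv s + extInv s).re := by
  have hsum : ∀ f : Fin 4 → ℝ, (∀ l, l ≠ i → f l = 0) → ∑ l, f l = f i := by
    intro f hf
    exact sum_eq_single_of_mem i (mem_univ i) fun l _ hl => hf l hl
  have hZ : ∑ l, zz (s l) = zz (s i) := hsum _ fun l h1 => zz_of_two (ho l h1)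
  have hJ : ∑ l, jj (s l) = 1 := by
    rw [hsum (fun l => jj (s l)) fun l h1 => jj_of_two (ho l h1), jj_of_three hi]
  have hzi := zz_nonneg (s i)
  have hzi1 := zz_le_one (s i)
  have hQ : ∑ u, zz (s u) * ∑ v, (cnt (s u) (s v) : ℝ) / Nat.card G * zz (s v) =
      (cnt (s i) (s i) : ℝ) / Nat.card G * zz (s i) ^ 2 := by
    rw [hsum (fun u => zz (s u) * ∑ v, (cnt (s u) (s v) : ℝ) / Nat.card G * zz (s v))
      (fun l h1 => by rw [zz_of_two (ho l h1), zero_mul]),
      hsum (fun v => (cnt (s i) (s v) : ℝ) / Nat.card G * zz (s v))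
        (fun l h1 => by rw [zz_of_two (ho l h1), mul_zero])]
    ring
  have hrot := rot s hprod i
  have hsq : ∀ l, l ≠ i → s l ^ 2 = 1 := fun l hl => by rw [← ho l hl]; exact pow_orderOf_eq_one _
  have e1 : i + 1 ≠ i := (by decide : ∀ j : Fin 4, j + 1 ≠ j) i
  have e2 : i + 2 ≠ i := (by decide : ∀ j : Fin 4, j + 2 ≠ j) i
  have e3 : i + 3 ≠ i := (by decide : ∀ j : Fin 4, j + 3 ≠ j) i
  by_cases hc : s i ∈ Subgroup.center G
  · have h4 : s i ^ 4 = 1 := pow_four hc hrot (hsq _ e1) (hsq _ e2) (hsq _ e3)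
    have h5 : orderOf (s i) ≤ 4 := Nat.le_of_dvd (by norm_num) (orderOf_dvd_of_pow_eq_one h4)
    have h6 : zz (s i) ≤ 1 / 4 := by
      rw [zz_of_three hi, y]
      have h7 : (orderOf (s i) : ℝ) ≤ 4 := by exact_mod_cast h5
      have h8 : (0 : ℝ) < orderOf (s i) := by exact_mod_cast orderOf_pos (s i)
      have h9 : 1 / 4 ≤ 1 / (orderOf (s i) : ℝ) := one_div_le_one_div_of_le h8 h7
      linarith
    apply of_p s hs
    rw [hQ, hJ, hZ]
    have p1 := mul_le_mul_of_nonneg_right (p_le_one (s i) (s i)) (sq_nonneg (zz (s i)))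
    nlinarith
  · by_cases h2 : ∃ b, TwoCls (s i) b
    · obtain ⟨b, hb⟩ := h2
      have hqi := exc_q_one s hprod hgen i hi ho hb
      have hii := sum_exc hb (hs i) (Or.inl rfl) hqi
      apply of_exc s hs
      · intro u v hu hv
        have hu' : u = i := by
          by_contra hcon
          have := ho u hcon
          omega
        have hv' : v = i := by
          by_contra hcon
          have := ho v hcon
          omega
        rw [hu', hv']
        exact hii
      · rw [hZ, hJ]
        nlinarith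
    · push Not at h2
      apply of_p s hs
      rw [hQ, hJ, hZ]
      have p1 := mul_le_mul_of_nonneg_right (p_third (b := s i) hc h2) (sq_nonneg (zz (s i)))
      nlinarith [mul_nonneg hzi (sub_nonneg.2 hzi1)]

include hna hprod hgen hs in
/-- Four branch points, `G` not commutative, not all the elements of order two. -/
theorem tensor_four (hg : ∃ i, s i ^ 2 ≠ 1) :
    5 / 1296 * (Nat.card G : ℝ) - 1 ≤ (quadInv s + extInv s).re := by
  have hn : (0 : ℝ) < Nat.card G := by exact_mod_cast Nat.card_pos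
  have hord : ∀ i, 3 ≤ orderOf (s i) ∨ orderOf (s i) = 2 := by
    intro i
    have h1 : orderOf (s i) ≠ 1 := by rw [Ne, orderOf_eq_one_iff]; exact hs i
    have h2 := orderOf_pos (s i)
    omega
  obtain ⟨i, hi⟩ := hg
  have hi3 : 3 ≤ orderOf (s i) := by
    rcases hord i with h | h
    · exact h
    · exfalso
      apply hi
      rw [← h]
      exact pow_orderOf_eq_one _
  by_cases h1 : ∀ l, l ≠ i → orderOf (s l) = 2
  · exact case_one s hprod hgen hs i hi3 h1
  push Not at h1
  obtain ⟨k, hki, hk⟩ := h1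
  have hk3 : 3 ≤ orderOf (s k) := (hord k).resolve_right hk
  by_cases h2 : ∀ l, l ≠ i → l ≠ k → orderOf (s l) = 2
  · exact case_two s hna hprod hgen hs i k (Ne.symm hki) hi3 hk3 h2
  push Not at h2
  obtain ⟨l, hli, hlk, hl⟩ := h2
  have hl3 : 3 ≤ orderOf (s l) := (hord l).resolve_right hl
  by_cases h3 : ∀ j, 3 ≤ orderOf (s j)
  · have h4 := four_case_four s hna hprod hgen hs h3
    linarith
  · push Not at h3
    obtain ⟨j, hj⟩ := h3
    have hj2 : orderOf (s j) = 2 := (hord j).resolve_left (by omega)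
    apply four_case_three s hna hprod hgen hs
    have hji : j ≠ i := by rintro rfl; omega
    have hjk : j ≠ k := by rintro rfl; omega
    have hjl : j ≠ l := by rintro rfl; omega
    have huniv : (univ : Finset (Fin 4)) = {i, k, l, j} := by
      symm
      apply eq_univ_of_card
      rw [card_insert_of_notMem, card_insert_of_notMem, card_insert_of_notMem, card_singleton,
        Fintype.card_fin]
      · simpa using hjl.symm
      · simp only [mem_insert, mem_singleton, not_or]
        exact ⟨hlk.symm, hjk.symm⟩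
      · simp only [mem_insert, mem_singleton, not_or]
        exact ⟨hki.symm, hli.symm, hji.symm⟩
    rw [huniv, sum_insert, sum_insert, sum_insert, sum_singleton, jj_of_three hi3,
      jj_of_three hk3, jj_of_three hl3, jj_of_two hj2]
    · norm_num
    · simpa using hjl.symm
    · simp only [mem_insert, mem_singleton, not_or]
      exact ⟨hlk.symm, hjk.symm⟩
    · simp only [mem_insert, mem_singleton, not_or]
      exact ⟨hki.symm, hli.symm, hji.symm⟩

include hna hprod hgen hs in
/-- All the orders are at least three. -/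
theorem tensor_four_all (h : ∀ i, 3 ≤ orderOf (s i)) :
    80 / 1296 * (Nat.card G : ℝ) - 1 ≤ (quadInv s + extInv s).re :=
  four_case_four s hna hprod hgen hs h

end cases

end Pool.Agent.H54.SQ
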