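import Pool.Agent.H54.SQ.Cls
import Pool.Agent.H54.SQ.Exc

set_option autoImplicit false

/-!
# Four branch points, groups which are not commutative: the invariants of the tensor square
-/

namespace Pool.Agent.H54.SQ

open Finset Pool.Agent.H82.CO Pool.Agent.H92.OG

variable {G : Type} [Group G] [Fintype G]

theorem tensor_formula {N : ℕ} (s : Fin N → G) :
    (quadInv s + extInv s).re = (Nat.card G : ℝ) * (1 - nu s) - 1 +
      ∑ i, ∑ j, ∑ w : G, q (s i) (w * s j * w⁻¹) := by
  have hn : (0 : ℝ) < Nat.card G := by exact_mod_cast Nat.card_pos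
  have h1 : (Nat.card G : ℝ) * (quadInv s + extInv s).re = (∑ g : G, chi s g ^ 2).re := by
    have h2 : (1 / (2 * (Nat.card G : ℂ))) = ((1 / (2 * (Nat.card G : ℝ)) : ℝ) : ℂ) := by
      push_cast; rfl
    rw [quadInv, extInv, ← mul_add, ← sum_add_distrib, h2, Complex.re_ofReal_mul]
    have h3 : ∀ g : G, chi s g ^ 2 + chi s (g ^ 2) + (chi s g ^ 2 - chi s (g ^ 2)) =
        ((2 : ℝ) : ℂ) * chi s g ^ 2 := by
      intro g
      push_cast
      ring
    rw [sum_congr rfl fun g _ => h3 g, ← mul_sum, Complex.re_ofReal_mul]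
    field_simp
  rw [sum_chi_sq] at h1
  have h4 : (Nat.card G : ℝ) * (quadInv s + extInv s).re = (Nat.card G : ℝ) *
      ((Nat.card G : ℝ) * (1 - nu s) - 1 + ∑ i, ∑ j, ∑ w : G, q (s i) (w * s j * w⁻¹)) := by
    rw [h1]; ring
  exact mul_left_cancel₀ hn.ne' h4

/-- indicator of the orders at least three -/
noncomputable def jj (a : G) : ℝ := if 3 ≤ orderOf a then 1 else 0

omit [Fintype G] in
theorem jj_of_three {a : G} (h : 3 ≤ orderOf a) : jj a = 1 := if_pos h

omit [Fintype G] in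
theorem jj_of_two {a : G} (h : orderOf a = 2) : jj a = 0 := if_neg (by omega)

omit [Fintype G] in
theorem zz_le_jj [Finite G] {a : G} (ha : a ≠ 1) : zz a ≤ jj a := by
  have h1 : orderOf a ≠ 1 := by rwa [Ne, orderOf_eq_one_iff]
  have h2 := orderOf_pos a
  by_cases h : 3 ≤ orderOf a
  · rw [jj_of_three h]; exact zz_le_one a
  · have h3 : orderOf a = 2 := by omega
    rw [zz_of_two h3, jj_of_two h3]

omit [Fintype G] in
theorem half_sub_y [Finite G] {a : G} (ha : a ≠ 1) : 1 / 2 - y a = (jj a + 2 * zz a) / 6 := by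
  have h1 : orderOf a ≠ 1 := by rwa [Ne, orderOf_eq_one_iff]
  have h2 := orderOf_pos a
  by_cases h : 3 ≤ orderOf a
  · rw [jj_of_three h, zz_of_three h]; ring
  · have h3 : orderOf a = 2 := by omega
    rw [zz_of_two h3, jj_of_two h3, y, h3]; norm_num

theorem of_E (s : Fin 4 → G) (hs : ∀ i, s i ≠ 1) (E : Fin 4 → Fin 4 → ℝ) (C : ℝ)
    (hE : ∀ i j, (Nat.card G : ℝ) * ((1 - y (s i)) * (1 - y (s j)) / 4 - E i j) ≤
      ∑ w : G, q (s i) (w * s j * w⁻¹))
    (hC : C ≤ 9 * (2 * (∑ i, zz (s i)) + ∑ i, jj (s i)) ^ 2 - 1296 * ∑ i, ∑ j, E i j) :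
    C / 1296 * (Nat.card G : ℝ) - 1 ≤ (quadInv s + extInv s).re := by
  have hn : (0 : ℝ) < Nat.card G := by exact_mod_cast Nat.card_pos
  rw [tensor_formula]
  have h1 := Finset.sum_le_sum (s := univ) fun i _ =>
    Finset.sum_le_sum (s := (univ : Finset (Fin 4))) fun j _ => hE i j
  have h2 : ∑ i, ∑ j, (Nat.card G : ℝ) * ((1 - y (s i)) * (1 - y (s j)) / 4 - E i j) =
      (Nat.card G : ℝ) * (nu s ^ 2 / 4 - ∑ i, ∑ j, E i j) := by
    have hnu : nu s = ∑ i, (1 - y (s i)) := rfl
    have e1 : nu s ^ 2 = ∑ i, ∑ j, (1 - y (s i)) * (1 - y (s j)) := by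
      rw [hnu, sq, Finset.sum_mul_sum]
    rw [e1]
    simp only [Finset.mul_sum, Finset.sum_div, ← Finset.sum_sub_distrib]
  rw [h2] at h1
  have h3 : nu s - 2 = (2 * (∑ i, zz (s i)) + ∑ i, jj (s i)) / 6 := by
    have h4 : nu s - 2 = ∑ i, (1 / 2 - y (s i)) := by
      have h5 : ∀ i, 1 / 2 - y (s i) = (1 - y (s i)) - 1 / 2 := fun i => by ring
      rw [sum_congr rfl fun i _ => h5 i, sum_sub_distrib]
      have h6 : nu s = ∑ i, (1 - y (s i)) := rfl
      rw [← h6]
      simp
      norm_num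
    rw [h4, sum_congr rfl fun i _ => half_sub_y (hs i), ← sum_div, sum_add_distrib, ← mul_sum]
    ring
  set n : ℝ := (Nat.card G : ℝ) with hn'
  set D := ∑ i, ∑ j, E i j with hD
  set X := 2 * (∑ i, zz (s i)) + ∑ i, jj (s i) with hX
  have h5 : nu s = 2 + X / 6 := by linarith
  have h6 : C / 1296 * n ≤ n * (X ^ 2 / 144 - D) := by
    have h7 : C / 1296 ≤ X ^ 2 / 144 - D := by linarith
    nlinarith
  have h8 : n * (1 - nu s) + n * (nu s ^ 2 / 4 - D) = n * (X ^ 2 / 144 - D) := by
    rw [h5]; ring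
  linarith

/-- the general bound -/
theorem of_p (s : Fin 4 → G) (hs : ∀ i, s i ≠ 1) (C : ℝ)
    (hC : C ≤ 9 * (2 * (∑ i, zz (s i)) + ∑ i, jj (s i)) ^ 2 - 60 * (∑ i, zz (s i)) ^ 2 -
      48 * ∑ i, zz (s i) * ∑ j, (cnt (s i) (s j) : ℝ) / Nat.card G * zz (s j)) :
    C / 1296 * (Nat.card G : ℝ) - 1 ≤ (quadInv s + extInv s).re := by
  have hn : (0 : ℝ) < Nat.card G := by exact_mod_cast Nat.card_pos
  refine of_E s hs (fun i j => zz (s i) * zz (s j) *
    (5 / 108 + (cnt (s i) (s j) : ℝ) / Nat.card G / 27)) C ?_ ?_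
  · intro i j
    refine le_trans (le_of_eq ?_) (sum_ge (hs i) (hs j))
    field_simp
  · refine le_trans hC (le_of_eq ?_)
    have h1 : ∑ i, ∑ j, zz (s i) * zz (s j) * (5 / 108 + (cnt (s i) (s j) : ℝ) / Nat.card G / 27) =
        5 / 108 * (∑ i, zz (s i)) ^ 2 + 1 / 27 * ∑ i, zz (s i) *
          ∑ j, (cnt (s i) (s j) : ℝ) / Nat.card G * zz (s j) := by
      rw [sq, Finset.sum_mul_sum]
      simp only [Finset.mul_sum, ← Finset.sum_add_distrib]
      refine sum_congr rfl fun i _ => sum_congr rfl fun j _ => ?_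
      ring
    rw [h1]
    ring

section facts

variable (s : Fin 4 → G)

theorem p_le_one (a b : G) : (cnt a b : ℝ) / Nat.card G ≤ 1 := by
  have hn : (0 : ℝ) < Nat.card G := by exact_mod_cast Nat.card_pos
  rw [div_le_one hn]
  exact_mod_cast cnt_le a b

theorem p_nonneg (a b : G) : 0 ≤ (cnt a b : ℝ) / Nat.card G := by positivity

theorem p_half {a b : G} (ha : a ∉ Subgroup.center G) : (cnt a b : ℝ) / Nat.card G ≤ 1 / 2 := by
  have hn : (0 : ℝ) < Nat.card G := by exact_mod_cast Nat.card_pos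
  rw [div_le_iff₀ hn]
  have h1 : ((2 * cnt a b : ℕ) : ℝ) ≤ Nat.card G := by exact_mod_cast cnt_half ha
  push_cast at h1
  linarith

theorem p_third {a b : G} (ha : a ∉ Subgroup.center G) (h2 : ∀ c : G, ¬ TwoCls a c) :
    (cnt a b : ℝ) / Nat.card G ≤ 1 / 3 := by
  have hn : (0 : ℝ) < Nat.card G := by exact_mod_cast Nat.card_pos
  rw [div_le_iff₀ hn]
  have h1 : ((3 * cnt a b : ℕ) : ℝ) ≤ Nat.card G := by exact_mod_cast cnt_third ha h2
  push_cast at h1
  linarith

theorem p_zero {a b : G} (h : ∀ w : G, w * b * w⁻¹ ≠ a) : (cnt a b : ℝ) / Nat.card G = 0 := by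
  rw [cnt_zero h]
  simp

omit [Fintype G] in
theorem conj_central {a b w : G} (hw : w * b * w⁻¹ = a) (ha : a ∈ Subgroup.center G) : b = a := by
  have h1 := Subgroup.mem_center_iff.1 ha w⁻¹
  have h2 : b = w⁻¹ * a * w := by rw [← hw]; group
  rw [h2, h1]; group

variable (hna : ∃ a b : G, a * b ≠ b * a)
  (hprod : (List.ofFn s).prod = 1) (hgen : Subgroup.closure (Set.range s) = ⊤)

include hna hprod hgen in
omit [Fintype G] in
theorem one_central [Finite G] {i k : Fin 4} (hi : s i ∈ Subgroup.center G)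
    (hk : s k ∈ Subgroup.center G) : i = k := by
  classical
  have := Fintype.ofFinite G
  by_contra hik
  have h1 := Pool.Agent.H78.OD.card_central_le hna (by norm_num) s hprod hgen
  have h2 : ({i, k} : Finset (Fin 4)).card ≤
      (univ.filter fun i : Fin 4 => s i ∈ Subgroup.center G).card := by
    apply card_le_card
    intro x hx
    simp only [mem_insert, mem_singleton] at hx
    rcases hx with rfl | rfl <;> simp [hi, hk]
  rw [card_pair hik] at h2
  omega

include hna hprod hgen in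
/-- the rows -/
theorem row_le {κ : ℝ} (h1 : 1 ≤ κ) (h3 : ∑ i, zz (s i) ≤ 3 * κ) (i : Fin 4) :
    ∑ j, (cnt (s i) (s j) : ℝ) / Nat.card G * zz (s j) ≤ κ := by
  classical
  by_cases hc : s i ∈ Subgroup.center G
  · have h4 : ∑ j, (cnt (s i) (s j) : ℝ) / Nat.card G * zz (s j) =
        (cnt (s i) (s i) : ℝ) / Nat.card G * zz (s i) := by
      apply sum_eq_single_of_mem i (mem_univ i)
      intro j _ hj
      rw [p_zero, zero_mul]
      intro w hw
      have h5 := conj_central hw hc
      exact hj (one_central s hna hprod hgen (by rw [h5]; exact hc) hc)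
    rw [h4]
    have h5 := p_le_one (s i) (s i)
    have h6 := p_nonneg (s i) (s i)
    have h7 := zz_nonneg (s i)
    have h8 := zz_le_one (s i)
    nlinarith
  · by_cases h2 : ∃ b, TwoCls (s i) b
    · obtain ⟨b, hb⟩ := h2
      have h4 : ∀ j, (cnt (s i) (s j) : ℝ) / Nat.card G * zz (s j) ≤
          if (s j = s i ∨ s j = b) then (1 / 2 : ℝ) else 0 := by
        intro j
        split_ifs with h
        · have h5 := p_half (b := s j) hc
          have h6 := p_nonneg (s i) (s j)
          have h7 := zz_nonneg (s j)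
          have h8 := zz_le_one (s j)
          nlinarith
        · rw [p_zero, zero_mul]
          intro w hw
          apply h
          have h5 : s j = w⁻¹ * s i * w⁻¹⁻¹ := by rw [← hw]; group
          rw [h5]
          exact hb.2.2 w⁻¹
      refine (sum_le_sum fun j _ => h4 j).trans ?_
      rw [← sum_filter, sum_const, nsmul_eq_mul]
      have h5 : (univ.filter fun j : Fin 4 => s j = s i ∨ s j = b).card ≤ 2 := by
        by_contra hcon
        push Not at hcon
        have h6 := Finset.card_filter_add_card_filter_not (s := (univ : Finset (Fin 4)))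
          (fun j : Fin 4 => s j = s i ∨ s j = b)
        rw [card_univ, Fintype.card_fin] at h6
        have h7 : (univ.filter fun j : Fin 4 => ¬ (s j = s i ∨ s j = b)).card ≤ 1 := by omega
        have h8 : ∃ q : Fin 4, ∀ j, j ≠ q → s j = s i ∨ s j = b := by
          rcases (univ.filter fun j : Fin 4 => ¬ (s j = s i ∨ s j = b)).eq_empty_or_nonempty with
            h9 | ⟨q, hq⟩
          · refine ⟨0, fun j _ => ?_⟩
            by_contra hj
            have : j ∈ (univ.filter fun j : Fin 4 => ¬ (s j = s i ∨ s j = b)) :=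
              mem_filter.2 ⟨mem_univ _, hj⟩
            rw [h9] at this
            simp at this
          · refine ⟨q, fun j hj => ?_⟩
            by_contra hj'
            apply hj
            exact card_le_one.1 h7 j (mem_filter.2 ⟨mem_univ _, hj'⟩) q hq
        obtain ⟨q, hq⟩ := h8
        exact not_three hna s hprod hgen hb q hq
      have h6 : ((univ.filter fun j : Fin 4 => s j = s i ∨ s j = b).card : ℝ) ≤ 2 := by
        exact_mod_cast h5
      linarith
    · push Not at h2
      have h4 : ∀ j, (cnt (s i) (s j) : ℝ) / Nat.card G * zz (s j) ≤ 1 / 3 * zz (s j) := by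
        intro j
        exact mul_le_mul_of_nonneg_right (p_third hc h2) (zz_nonneg _)
      refine (sum_le_sum fun j _ => h4 j).trans ?_
      rw [← mul_sum]
      linarith

include hna hprod hgen in
theorem four_case_four (hs : ∀ i, s i ≠ 1) (h : ∀ i, 3 ≤ orderOf (s i)) :
    80 / 1296 * (Nat.card G : ℝ) - 1 ≤ (quadInv s + extInv s).re := by
  apply of_p s hs
  have hJ : ∑ i, jj (s i) = 4 := by
    rw [sum_congr rfl fun i _ => jj_of_three (h i)]
    simp
  have hZ0 : 0 ≤ ∑ i, zz (s i) := sum_nonneg fun i _ => zz_nonneg _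
  have hZ : ∑ i, zz (s i) ≤ 4 := by
    rw [← hJ]
    exact sum_le_sum fun i _ => zz_le_jj (hs i)
  have hR : ∑ i, zz (s i) * ∑ j, (cnt (s i) (s j) : ℝ) / Nat.card G * zz (s j) ≤
      (∑ i, zz (s i)) * (4 / 3) := by
    rw [sum_mul]
    refine sum_le_sum fun i _ => mul_le_mul_of_nonneg_left ?_ (zz_nonneg _)
    exact row_le s hna hprod hgen (by norm_num) (by linarith) i
  rw [hJ]
  set Z := ∑ i, zz (s i)
  nlinarith [mul_nonneg (sub_nonneg.2 hZ) hZ0]

include hna hprod hgen in
theorem four_case_three (hs : ∀ i, s i ≠ 1) (hJ : ∑ i, jj (s i) = 3) :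
    5 / 1296 * (Nat.card G : ℝ) - 1 ≤ (quadInv s + extInv s).re := by
  apply of_p s hs
  have hZ0 : 0 ≤ ∑ i, zz (s i) := sum_nonneg fun i _ => zz_nonneg _
  have hZ : ∑ i, zz (s i) ≤ 3 := by
    rw [← hJ]
    exact sum_le_sum fun i _ => zz_le_jj (hs i)
  have hR : ∑ i, zz (s i) * ∑ j, (cnt (s i) (s j) : ℝ) / Nat.card G * zz (s j) ≤
      (∑ i, zz (s i)) * 1 := by
    rw [sum_mul]
    refine sum_le_sum fun i _ => mul_le_mul_of_nonneg_left ?_ (zz_nonneg _)
    exact row_le s hna hprod hgen (by norm_num) (by linarith) i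
  rw [hJ]
  set Z := ∑ i, zz (s i)
  nlinarith [mul_nonneg (sub_nonneg.2 hZ) hZ0]

end facts

end Pool.Agent.H54.SQ
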