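import Pool.Agent.H54.SQ.Defs
import Pool.Agent.H54.SQ.Perm

set_option autoImplicit false

/-!
# The lower bounds for the pairing, any order (note 5867, (2))

* `q_same_all`: the proof of `Pool.Agent.H92.OG.q_same` (file `Pool/Agent/H92/OG/Same.lean`) with `perm_far_all` in
place of `perm_far`.
* `ge_self`: `q_self`; `(1 - y ^ 2) / 6 ≥ (1 - y) ^ 2 / 4 - z ^ 2 / 12` (`q_ge_self`), and for order 2
`1 / 8 ≥ 1 / 16`.
* `ge_ne`: `<a> = <b>`: `q_same_all` and arithmetic as in `Pool.Agent.H92.OG.q_ge` (if the orders are `≥ 3`; the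
order is not 2 since then `a = b`). `<a> ≠ <b>`: `q_diff`, `c` the order of the intersection. If `c ≤ 5` the extra
term is `≥ 0`. If `c ≥ 6` then the orders `m = c u`, `m' = c v` are at least 6 and `u ≥ 2` or `v ≥ 2` (else the two
cyclic groups are equal), so `(c - 1)(c - 5) ≤ (c - 3) ^ 2 ≤ (m - 3)(m' - 3) / 2`.
* `ge_quarter`: the same; equal orders, so `u = v ≥ 2` and `(c - 3) ^ 2 ≤ (m - 3) ^ 2 / 4`.
-/

namespace Pool.Agent.H54.SQ

open Finset Pool.Agent.H82.CO Pool.Agent.H92.OG

variable {G : Type} [Group G] [Fintype G]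

theorem q_same_all {a b : G} (h : Subgroup.zpowers a = Subgroup.zpowers b)
    (hab : a ≠ b) : (1 - y a ^ 2) / 6 + 1 / 27 ≤ q a b := by
  have hm := orderOf_pos a
  have hm' : (0 : ℝ) < orderOf a := by exact_mod_cast hm
  have hmb : orderOf b = orderOf a := by
    rw [← Nat.card_zpowers, ← Nat.card_zpowers, h]
  have hb : b ∈ Subgroup.zpowers a := by rw [h]; exact Subgroup.mem_zpowers b
  rw [← mem_powers_iff_mem_zpowers] at hb
  obtain ⟨u, rfl⟩ := hb
  have hu : u.Coprime (orderOf a) := by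
    have h1 := orderOf_pow (n := u) a
    rw [hmb] at h1
    have h2 : Nat.gcd (orderOf a) u = 1 := by
      have h3 := Nat.gcd_dvd_left (orderOf a) u
      have h4 : 0 < Nat.gcd (orderOf a) u := Nat.gcd_pos_of_pos_left _ hm
      have h5 : orderOf a = orderOf a / Nat.gcd (orderOf a) u * Nat.gcd (orderOf a) u :=
        (Nat.div_mul_cancel h3).symm
      rw [← h1] at h5
      nlinarith
    rw [Nat.coprime_comm]
    exact h2
  have hu1 : ¬ u ≡ 1 [MOD orderOf a] := by
    intro h1
    apply hab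
    have h2 := (pow_eq_pow_iff_modEq (x := a) (n := u) (m := 1)).2 h1
    rw [pow_one] at h2
    exact h2.symm
  have h1 := perm_far_all hm hu hu1
  have h2 := perm_sum hm hu
  have h3 : (P a (a ^ u)).re = 1 / (orderOf a : ℝ) * ∑ k ∈ range (orderOf a),
      (k : ℝ) * ((orderOf a : ℝ) - ((u * k) % orderOf a : ℕ)) := by
    rw [P_pow a hu, Complex.ofReal_re]
  have h4 : ∑ k ∈ range (orderOf a), (k : ℝ) * ((orderOf a : ℝ) - ((u * k) % orderOf a : ℕ)) =
      (orderOf a : ℝ) * ∑ k ∈ range (orderOf a), (k : ℝ) -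
        ∑ k ∈ range (orderOf a), (k : ℝ) ^ 2 +
        1 / 2 * ∑ k ∈ range (orderOf a), ((k : ℝ) - ((u * k) % orderOf a : ℕ)) ^ 2 := by
    have h5 : ∑ k ∈ range (orderOf a), ((k : ℝ) - ((u * k) % orderOf a : ℕ)) ^ 2 =
        ∑ k ∈ range (orderOf a), (k : ℝ) ^ 2 + ∑ k ∈ range (orderOf a),
          (((u * k) % orderOf a : ℕ) : ℝ) ^ 2 - 2 * ∑ k ∈ range (orderOf a),
          (k : ℝ) * ((u * k) % orderOf a : ℕ) := by
      rw [mul_sum, ← sum_add_distrib, ← sum_sub_distrib]
      exact sum_congr rfl fun k _ => by ring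
    have h6 : ∑ k ∈ range (orderOf a), (k : ℝ) * ((orderOf a : ℝ) - ((u * k) % orderOf a : ℕ)) =
        (orderOf a : ℝ) * ∑ k ∈ range (orderOf a), (k : ℝ) - ∑ k ∈ range (orderOf a),
          (k : ℝ) * ((u * k) % orderOf a : ℕ) := by
      rw [mul_sum, ← sum_sub_distrib]
      exact sum_congr rfl fun k _ => by ring
    rw [h6, h5, h2]
    ring
  rw [sum_id_range, sum_sq_range] at h4
  have h5 : ((orderOf a : ℝ) ^ 2 - 1) / 6 + (orderOf a : ℝ) ^ 2 / 27 ≤ (P a (a ^ u)).re := by
    rw [h3, h4]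
    have h6 : ((orderOf a : ℝ) ^ 2 - 1) / 6 + (orderOf a : ℝ) ^ 2 / 27 =
        1 / (orderOf a : ℝ) * ((orderOf a : ℝ) * (orderOf a * (orderOf a - 1) / 2) -
          (orderOf a - 1) * orderOf a * (2 * orderOf a - 1) / 6 +
          1 / 2 * (2 / 27 * (orderOf a : ℝ) ^ 3)) := by
      field_simp
      ring
    rw [h6]
    refine mul_le_mul_of_nonneg_left ?_ (by positivity)
    linarith
  rw [q, hmb, le_div_iff₀ (mul_pos hm' hm'), y]
  refine le_trans (le_of_eq ?_) h5
  field_simp

private theorem two_le {a : G} (ha : a ≠ 1) : 2 ≤ orderOf a := by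
  have h1 : orderOf a ≠ 1 := fun h => ha (orderOf_eq_one_iff.1 h)
  have h2 := orderOf_pos a
  omega

theorem ge_self {a : G} (ha : a ≠ 1) :
    (1 - y a) * (1 - y a) / 4 - zz a * zz a / 12 ≤ q a a := by
  rcases Nat.lt_or_ge (orderOf a) 3 with h | h
  · have h2 : orderOf a = 2 := by have := two_le ha; omega
    rw [q_self, zz_of_two h2, y, h2]
    norm_num
  · have h1 := q_ge_self a
    rw [z] at h1
    rw [zz_of_three h]
    exact h1

/-- the intersection of two different cyclic groups -/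
private theorem key {a b : G} {r : ℝ} (hr : 0 ≤ r) (hne : Subgroup.zpowers a ≠ Subgroup.zpowers b)
    (hk : ∀ c u v : ℕ, 6 ≤ c → orderOf a = c * u → orderOf b = c * v → 1 ≤ u → 1 ≤ v →
      (2 ≤ u ∨ 2 ≤ v) → ((c : ℝ) - 3) ^ 2 ≤ r * ((orderOf a - 3) * (orderOf b - 3))) :
    (1 - y a) * (1 - y b) / 4 - r / 12 * (zz a * zz b) ≤ q a b := by
  have h1 := q_diff a b
  have hma := orderOf_pos a
  have hmb := orderOf_pos b
  have hca : Nat.card (Subgroup.zpowers a ⊓ Subgroup.zpowers b : Subgroup G) ∣ orderOf a := by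
    rw [← Nat.card_zpowers]
    exact Subgroup.card_dvd_of_le inf_le_left
  have hcb : Nat.card (Subgroup.zpowers a ⊓ Subgroup.zpowers b : Subgroup G) ∣ orderOf b := by
    rw [← Nat.card_zpowers]
    exact Subgroup.card_dvd_of_le inf_le_right
  have hne : ¬ (Nat.card (Subgroup.zpowers a ⊓ Subgroup.zpowers b : Subgroup G) = orderOf a ∧
      Nat.card (Subgroup.zpowers a ⊓ Subgroup.zpowers b : Subgroup G) = orderOf b) := by
    rintro ⟨h4, h5⟩
    apply hne
    have h6 : (Subgroup.zpowers a ⊓ Subgroup.zpowers b : Subgroup G) = Subgroup.zpowers a :=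
      Subgroup.eq_of_le_of_card_ge inf_le_left (by rw [Nat.card_zpowers, h4])
    have h7 : (Subgroup.zpowers a ⊓ Subgroup.zpowers b : Subgroup G) = Subgroup.zpowers b :=
      Subgroup.eq_of_le_of_card_ge inf_le_right (by rw [Nat.card_zpowers, h5])
    rw [← h6, h7]
  generalize Nat.card (Subgroup.zpowers a ⊓ Subgroup.zpowers b : Subgroup G) = c at *
  obtain ⟨u, hu⟩ := hca
  obtain ⟨v, hv⟩ := hcb
  have hc0 : 0 < c := by
    rcases Nat.eq_zero_or_pos c with h | h
    · rw [h, zero_mul] at hu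
      omega
    · exact h
  have hu1 : 1 ≤ u := by
    rcases Nat.eq_zero_or_pos u with h | h
    · rw [h, mul_zero] at hu
      omega
    · exact h
  have hv1 : 1 ≤ v := by
    rcases Nat.eq_zero_or_pos v with h | h
    · rw [h, mul_zero] at hv
      omega
    · exact h
  have huv : 2 ≤ u ∨ 2 ≤ v := by
    by_contra hcon
    push Not at hcon
    have h4 : u = 1 := by omega
    have h5 : v = 1 := by omega
    exact hne ⟨by rw [hu, h4, mul_one], by rw [hv, h5, mul_one]⟩
  have hma' : (0 : ℝ) < orderOf a := by exact_mod_cast hma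
  have hmb' : (0 : ℝ) < orderOf b := by exact_mod_cast hmb
  have hmm : (0 : ℝ) < (orderOf a : ℝ) * orderOf b := mul_pos hma' hmb'
  have hc1 : (1 : ℝ) ≤ c := by exact_mod_cast hc0
  have key : ((c : ℝ) - 1) * (c - 5) ≤ r * (zz a * zz b) * ((orderOf a : ℝ) * orderOf b) := by
    rcases Nat.lt_or_ge c 6 with hc | hc
    · have hc' : (c : ℝ) ≤ 5 := by exact_mod_cast (by omega : c ≤ 5)
      have h2 : 0 ≤ r * (zz a * zz b) * ((orderOf a : ℝ) * orderOf b) :=
        mul_nonneg (mul_nonneg hr (mul_nonneg (zz_nonneg a) (zz_nonneg b))) hmm.le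
      have h3 : ((c : ℝ) - 1) * (c - 5) ≤ 0 := mul_nonpos_of_nonneg_of_nonpos (by linarith) (by linarith)
      linarith
    · have h3a : 3 ≤ orderOf a := by rw [hu]; nlinarith
      have h3b : 3 ≤ orderOf b := by rw [hv]; nlinarith
      have h4 := hk c u v hc hu hv hu1 hv1 huv
      have h5 : zz a * zz b * ((orderOf a : ℝ) * orderOf b) =
          (orderOf a - 3) * (orderOf b - 3) := by
        rw [zz_of_three h3a, zz_of_three h3b, y, y]
        field_simp
      rw [mul_assoc, h5]
      refine le_trans ?_ h4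
      nlinarith
  refine le_trans ?_ h1
  have h2 : -(r / 12 * (zz a * zz b)) ≤
      ((c : ℝ) - 1) * (5 - c) / (12 * ((orderOf a : ℝ) * orderOf b)) := by
    rw [le_div_iff₀ (by positivity)]
    nlinarith
  linarith

theorem ge_ne {a b : G} (ha : a ≠ 1) (hb : b ≠ 1) (hab : a ≠ b) :
    (1 - y a) * (1 - y b) / 4 - 5 / 108 * (zz a * zz b) ≤ q a b := by
  by_cases h : Subgroup.zpowers a = Subgroup.zpowers b
  · have h1 := q_same_all h hab
    have h2 : orderOf a = orderOf b := by
      rw [← Nat.card_zpowers, ← Nat.card_zpowers, h]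
    have h3 : y b = y a := by rw [y, y, h2]
    have h4 : 0 ≤ y a := by rw [y]; positivity
    have h5 : 3 ≤ orderOf a := by
      by_contra hcon
      have h6 : orderOf a = 2 := by have := two_le ha; omega
      have hb' : b ∈ Subgroup.zpowers a := by rw [h]; exact Subgroup.mem_zpowers b
      rw [← mem_powers_iff_mem_zpowers] at hb'
      obtain ⟨k, hk⟩ := hb'
      have hk' : a ^ k = b := hk
      have h7 : a ^ (k % 2) = b := by rw [← hk', ← h6, pow_mod_orderOf]
      rcases Nat.mod_two_eq_zero_or_one k with h8 | h8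
      · rw [h8, pow_zero] at h7
        exact hb h7.symm
      · rw [h8, pow_one] at h7
        exact hab h7
    rw [zz_of_three h5, zz_of_three (by rw [← h2]; exact h5), h3]
    nlinarith
  · have h1 := key (r := 1 / 2) (by norm_num) h ?_
    · have h2 := mul_nonneg (zz_nonneg a) (zz_nonneg b)
      linarith
    · intro c u v hc hu hv hu1 hv1 huv
      have hc' : (6 : ℝ) ≤ c := by exact_mod_cast hc
      have hA : (orderOf a : ℝ) = c * u := by exact_mod_cast hu
      have hB : (orderOf b : ℝ) = c * v := by exact_mod_cast hv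
      have hu' : (1 : ℝ) ≤ u := by exact_mod_cast hu1
      have hv' : (1 : ℝ) ≤ v := by exact_mod_cast hv1
      have h5 : (c : ℝ) - 3 ≤ orderOf a - 3 := by rw [hA]; nlinarith
      have h6 : (c : ℝ) - 3 ≤ orderOf b - 3 := by rw [hB]; nlinarith
      rcases huv with h7 | h7
      · have h8 : (2 : ℝ) ≤ u := by exact_mod_cast h7
        have h9 : 2 * ((c : ℝ) - 3) ≤ orderOf a - 3 := by rw [hA]; nlinarith
        have h10 : 2 * ((c : ℝ) - 3) * (c - 3) ≤ (orderOf a - 3) * (orderOf b - 3) :=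
          mul_le_mul h9 h6 (by linarith) (by linarith)
        nlinarith
      · have h8 : (2 : ℝ) ≤ v := by exact_mod_cast h7
        have h9 : 2 * ((c : ℝ) - 3) ≤ orderOf b - 3 := by rw [hB]; nlinarith
        have h10 : ((c : ℝ) - 3) * (2 * ((c : ℝ) - 3)) ≤ (orderOf a - 3) * (orderOf b - 3) :=
          mul_le_mul h5 h9 (by linarith) (by linarith)
        nlinarith

theorem ge_quarter {a b : G} (ha : a ≠ 1) (hb : b ≠ 1) (ho : orderOf a = orderOf b)
    (hne : Subgroup.zpowers a ≠ Subgroup.zpowers b) :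
    (1 - y a) * (1 - y b) / 4 - 1 / 48 * (zz a * zz b) ≤ q a b := by
  have h1 := key (r := 1 / 4) (by norm_num) hne ?_
  · linarith
  · intro c u v hc hu hv hu1 hv1 huv
    have hc' : (6 : ℝ) ≤ c := by exact_mod_cast hc
    have huv' : u = v := by
      have h2 : c * u = c * v := by rw [← hu, ← hv, ho]
      exact Nat.eq_of_mul_eq_mul_left (by omega) h2
    have hu2 : 2 ≤ u := by omega
    have hA : (orderOf a : ℝ) = c * u := by exact_mod_cast hu
    have hu' : (2 : ℝ) ≤ u := by exact_mod_cast hu2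
    have h9 : 2 * ((c : ℝ) - 3) ≤ orderOf a - 3 := by rw [hA]; nlinarith
    have h10 : 2 * ((c : ℝ) - 3) * (2 * ((c : ℝ) - 3)) ≤ (orderOf a - 3) * (orderOf a - 3) :=
      mul_le_mul h9 h9 (by linarith) (by linarith)
    rw [← ho]
    nlinarith

end Pool.Agent.H54.SQ
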